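import Pool.Agent.W805.LD.Cubic

set_option autoImplicit false

open Set MeasureTheory N460a421b

namespace Pool.Agent.W805.LD

/-- the lemniscate `{∏ |w - a| ≤ c}` of a multiset of zeros. -/
def EE (s : Multiset ℂ) (c : ℝ) : Set ℂ := {w | (s.map fun a => ‖w - a‖).prod ≤ c}

/-- scaled form of the covering property: for each level `0 < c ≤ 1` the set `{|f| ≤ c}` has a
cover of total radius `2 c^(1/n)`. -/
def PS (s : Multiset ℂ) : Prop :=
  ∀ c : ℝ, 0 < c → c ≤ 1 → FC (EE s c) (2 * c ^ (1 / (Multiset.card s : ℝ)))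

lemma prod_scale (s : Multiset ℂ) (w : ℂ) {l : ℝ} (hl : 0 < l) :
    ((s.map fun a => a / (l : ℂ)).map fun a => ‖w / (l : ℂ) - a‖).prod * l ^ (Multiset.card s)
      = (s.map fun a => ‖w - a‖).prod := by
  induction s using Multiset.induction_on with
  | empty => simp
  | cons a s ih =>
    simp only [Multiset.map_cons, Multiset.prod_cons, Multiset.card_cons, pow_succ]
    rw [← ih]
    have e : ‖w / (l : ℂ) - a / (l : ℂ)‖ = ‖w - a‖ / l := by
      rw [← sub_div, norm_div, Complex.norm_real, Real.norm_of_nonneg hl.le]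
    rw [e]
    field_simp

/-- the scaled property follows from the property at level one for all dilated zeros. -/
lemma PS_of (s : Multiset ℂ) (hs : s ≠ 0)
    (h : ∀ l : ℝ, 0 < l → l ≤ 1 → FC (EE (s.map fun a => a / (l : ℂ)) 1) 2) : PS s := by
  intro c hc hc1
  have hn : 0 < Multiset.card s := Multiset.card_pos.2 hs
  have hn' : (Multiset.card s : ℝ) ≠ 0 := by positivity
  set l : ℝ := c ^ (1 / (Multiset.card s : ℝ)) with hl
  have hl0 : 0 < l := Real.rpow_pos_of_pos hc _
  have hl1 : l ≤ 1 := Real.rpow_le_one hc.le hc1 (by positivity)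
  have hlp : l ^ (Multiset.card s) = c := by
    rw [hl, ← Real.rpow_natCast, ← Real.rpow_mul hc.le]
    rw [one_div, inv_mul_cancel₀ hn', Real.rpow_one]
  apply (FC.scale hl0 (h l hl0 hl1)).mono _ (by linarith)
  intro w hw
  show ((s.map fun a => a / (l : ℂ)).map fun a => ‖w / (l : ℂ) - a‖).prod ≤ 1
  have h1 := prod_scale s w hl0
  have h2 : (s.map fun a => ‖w - a‖).prod ≤ c := hw
  rw [← h1, hlp] at h2
  by_contra h3
  push Not at h3
  nlinarith

/-- Every zero multiset as a tuple. -/
lemma exists_tuple (s : Multiset ℂ) : ∃ z : Fin (Multiset.card s) → ℂ,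
    s = Finset.univ.val.map z := by
  obtain ⟨l, hl⟩ : ∃ l : List ℂ, (l : Multiset ℂ) = s := Quot.exists_rep s
  have hlen : l.length = Multiset.card s := by rw [← hl]; rfl
  refine ⟨fun i => l.get (i.cast hlen.symm), ?_⟩
  rw [Fin.univ_val_map]
  conv_lhs => rw [← hl]
  congr 1
  apply List.ext_get
  · simp [hlen]
  · intro m h1 h2
    simp

/-- three or fewer zeros -/
lemma small (s : Multiset ℂ) (hs : s ≠ 0) (h3 : Multiset.card s ≤ 3) : PS s := by
  apply PS_of s hs
  intro l hl hl1
  have key : ∀ t : Multiset ℂ, t ≠ 0 → Multiset.card t ≤ 3 → FC (EE t 1) 2 := by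
    intro t ht0 ht
    have hpos : 0 < Multiset.card t := Multiset.card_pos.2 ht0
    have hc : Multiset.card t = 1 ∨ Multiset.card t = 2 ∨ Multiset.card t = 3 := by omega
    rcases hc with h | h | h
    · obtain ⟨a, rfl⟩ := Multiset.card_eq_one.1 h
      apply (FC.single (m := a) (R := 1) one_pos _).mono (Subset.refl _) (by norm_num)
      intro w hw
      have : (({a} : Multiset ℂ).map fun a => ‖w - a‖).prod ≤ 1 := hw
      simpa using this
    · obtain ⟨a, b, rfl⟩ := Multiset.card_eq_two.1 h
      apply (pair a b).mono _ (by norm_num)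
      intro w hw
      have : (({a, b} : Multiset ℂ).map fun a => ‖w - a‖).prod ≤ 1 := hw
      simpa [E2] using this
    · obtain ⟨a, b, c, rfl⟩ := Multiset.card_eq_three.1 h
      apply (cubic a b c).mono _ le_rfl
      intro w hw
      have : (({a, b, c} : Multiset ℂ).map fun a => ‖w - a‖).prod ≤ 1 := hw
      simpa [E3, mul_assoc] using this
  apply key
  · simpa using hs
  · simpa using h3

/-- zeros on a line -/
lemma collinear (s : Multiset ℂ) (hs : s ≠ 0) (u : ℂ) (c : ℝ) (hu : ‖u‖ = 1)
    (h : ∀ a ∈ s, (u * a).im = c) : PS s := by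
  apply PS_of s hs
  intro l hl hl1
  set t := s.map fun a => a / (l : ℂ) with ht
  have htc : Multiset.card t = Multiset.card s := by simp [ht]
  have hpos : 0 < Multiset.card t := by rw [htc]; exact Multiset.card_pos.2 hs
  obtain ⟨z, hz⟩ := exists_tuple t
  have h1 := line hpos z u hu (c / l) (by
    intro i
    have : z i ∈ t := by rw [hz]; exact Multiset.mem_map_of_mem _ (Finset.mem_univ_val i)
    rw [ht, Multiset.mem_map] at this
    obtain ⟨a, ha, hza⟩ := this
    rw [← hza, ← h a ha, mul_div_assoc', Complex.div_ofReal_im])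
  apply h1.mono
  · intro w hw
    have h2 : (t.map fun a => ‖w - a‖).prod ≤ 1 := hw
    rw [hz, Multiset.map_map] at h2
    show ‖∏ i, (w - z i)‖ ≤ 1
    rw [norm_prod]
    exact h2
  · calc (2 : ℝ) ^ (1 - 1 / (Multiset.card t : ℝ)) ≤ 2 ^ (1 : ℝ) := by
          apply Real.rpow_le_rpow_of_exponent_le (by norm_num)
          have : 0 ≤ 1 / (Multiset.card t : ℝ) := by positivity
          linarith
      _ = 2 := by simp

end Pool.Agent.W805.LD
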