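import Mathlib

set_option autoImplicit false

open Set

namespace Pool.Agent.W805.LD

variable {ι : Type} [Fintype ι]

/-- the set where the modulus of the real polynomial with zeros `x i` is at most one. -/
def KK (x : ι → ℝ) : Set ℝ := {t | ∏ i, |t - x i| ≤ 1}

lemma q_cont (x : ι → ℝ) : Continuous fun t : ℝ => ∏ i, |t - x i| := by
  apply continuous_finset_prod
  intro i _
  exact (continuous_id.sub continuous_const).abs

lemma KK_closed (x : ι → ℝ) : IsClosed (KK x) :=
  isClosed_le (q_cont x) continuous_const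

lemma KK_compact [Nonempty ι] (x : ι → ℝ) : IsCompact (KK x) := by
  apply Metric.isCompact_of_isClosed_isBounded (KK_closed x)
  have h1 : KK x ⊆ ⋃ i, Metric.closedBall (x i) 1 := by
    intro t ht
    by_contra hcon
    simp only [mem_iUnion, Metric.mem_closedBall, not_exists, not_le, Real.dist_eq] at hcon
    have h2 : ∏ _i : ι, (1 : ℝ) < ∏ i, |t - x i| :=
      Finset.prod_lt_prod_of_nonempty (fun i _ => one_pos) (fun i _ => hcon i) Finset.univ_nonempty
    rw [Finset.prod_const_one] at h2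
    exact absurd ht (not_le.2 h2)
  have h2 : Bornology.IsBounded (⋃ i, Metric.closedBall (x i) (1 : ℝ)) := by
    rw [Bornology.isBounded_iUnion]
    intro i; exact Metric.isBounded_closedBall
  exact h2.subset h1

lemma root_mem (x : ι → ℝ) (i : ι) : x i ∈ KK x := by
  have : ∏ j, |x i - x j| = 0 := Finset.prod_eq_zero (Finset.mem_univ i) (by simp)
  simp only [KK, mem_setOf_eq, this]; norm_num

lemma comp_closed (x : ι → ℝ) {y : ℝ} (hy : y ∈ KK x) :
    IsClosed (connectedComponentIn (KK x) y) := by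
  have h1 : closure (connectedComponentIn (KK x) y) ⊆ KK x :=
    closure_minimal (connectedComponentIn_subset _ _) (KK_closed x)
  have h2 : closure (connectedComponentIn (KK x) y) ⊆ connectedComponentIn (KK x) y :=
    IsPreconnected.subset_connectedComponentIn
      (isPreconnected_connectedComponentIn.closure)
      (subset_closure (mem_connectedComponentIn hy)) h1
  exact isClosed_of_closure_subset h2

lemma comp_eq_Icc [Nonempty ι] (x : ι → ℝ) {y : ℝ} (hy : y ∈ KK x) :
    connectedComponentIn (KK x) y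
      = Icc (sInf (connectedComponentIn (KK x) y)) (sSup (connectedComponentIn (KK x) y)) := by
  apply eq_Icc_of_connected_compact
  · exact isConnected_connectedComponentIn_iff.2 hy
  · exact (KK_compact x).of_isClosed_subset (comp_closed x hy) (connectedComponentIn_subset _ _)

lemma outL [Nonempty ι] (x : ι → ℝ) {y a b : ℝ} (hy : y ∈ KK x)
    (hC : connectedComponentIn (KK x) y = Icc a b) {e : ℝ} (he : 0 < e) :
    ∃ t, a - e < t ∧ t < a ∧ 1 < ∏ i, |t - x i| := by
  by_contra hcon
  push_neg at hcon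
  have hyC : y ∈ Icc a b := hC ▸ mem_connectedComponentIn hy
  have hab : a ≤ b := le_trans hyC.1 hyC.2
  have h1 : Icc (a - e / 2) b ⊆ KK x := by
    intro t ht
    by_cases hta : t < a
    · exact hcon t (by linarith [ht.1]) hta
    · have : t ∈ connectedComponentIn (KK x) y := by rw [hC]; exact ⟨not_lt.1 hta, ht.2⟩
      exact connectedComponentIn_subset _ _ this
  have h2 : Icc (a - e / 2) b ⊆ connectedComponentIn (KK x) y :=
    isPreconnected_Icc.subset_connectedComponentIn ⟨by linarith [hyC.1], hyC.2⟩ h1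
  rw [hC] at h2
  have := h2 (left_mem_Icc.2 (by linarith))
  linarith [this.1]

lemma outR [Nonempty ι] (x : ι → ℝ) {y a b : ℝ} (hy : y ∈ KK x)
    (hC : connectedComponentIn (KK x) y = Icc a b) {e : ℝ} (he : 0 < e) :
    ∃ t, b < t ∧ t < b + e ∧ 1 < ∏ i, |t - x i| := by
  by_contra hcon
  push_neg at hcon
  have hyC : y ∈ Icc a b := hC ▸ mem_connectedComponentIn hy
  have hab : a ≤ b := le_trans hyC.1 hyC.2
  have h1 : Icc a (b + e / 2) ⊆ KK x := by
    intro t ht
    by_cases hta : b < t
    · exact hcon t hta (by linarith [ht.2])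
    · have : t ∈ connectedComponentIn (KK x) y := by rw [hC]; exact ⟨ht.1, not_lt.1 hta⟩
      exact connectedComponentIn_subset _ _ this
  have h2 : Icc a (b + e / 2) ⊆ connectedComponentIn (KK x) y :=
    isPreconnected_Icc.subset_connectedComponentIn ⟨hyC.1, by linarith [hyC.2]⟩ h1
  rw [hC] at h2
  have := h2 (right_mem_Icc.2 (by linarith))
  linarith [this.2]

lemma endL [Nonempty ι] (x : ι → ℝ) {y a b : ℝ} (hy : y ∈ KK x)
    (hC : connectedComponentIn (KK x) y = Icc a b) : 1 ≤ ∏ i, |a - x i| := by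
  by_contra hcon
  push_neg at hcon
  have h1 : ∀ᶠ t in nhds a, ∏ i, |t - x i| < 1 := (q_cont x).continuousAt.eventually_lt_const hcon
  obtain ⟨e, he, h2⟩ := Metric.eventually_nhds_iff.1 h1
  obtain ⟨t, ht1, ht2, ht3⟩ := outL x hy hC he
  have h3 := @h2 t (by rw [Real.dist_eq, abs_lt]; constructor <;> linarith)
  linarith

lemma endR [Nonempty ι] (x : ι → ℝ) {y a b : ℝ} (hy : y ∈ KK x)
    (hC : connectedComponentIn (KK x) y = Icc a b) : 1 ≤ ∏ i, |b - x i| := by
  by_contra hcon
  push_neg at hcon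
  have h1 : ∀ᶠ t in nhds b, ∏ i, |t - x i| < 1 := (q_cont x).continuousAt.eventually_lt_const hcon
  obtain ⟨e, he, h2⟩ := Metric.eventually_nhds_iff.1 h1
  obtain ⟨t, ht1, ht2, ht3⟩ := outR x hy hC he
  have h3 := @h2 t (by rw [Real.dist_eq, abs_lt]; constructor <;> linarith)
  linarith

/-- weighted geometric mean bound for products. -/
lemma prod_ge (A B V : ι → ℝ) {s m : ℝ} (h0 : 0 ≤ s) (h1 : s ≤ 1) (hm : 0 < m)
    (hA : ∀ i, 0 ≤ A i) (hB : ∀ i, 0 ≤ B i) (hV : ∀ i, A i ^ (1 - s) * B i ^ s ≤ V i)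
    (ha : m ≤ ∏ i, A i) (hb : m ≤ ∏ i, B i) : m ≤ ∏ i, V i := by
  have h2 : ∏ i, (A i ^ (1 - s) * B i ^ s) ≤ ∏ i, V i :=
    Finset.prod_le_prod (fun i _ => mul_nonneg (Real.rpow_nonneg (hA i) _)
      (Real.rpow_nonneg (hB i) _)) (fun i _ => hV i)
  refine le_trans ?_ h2
  rw [Finset.prod_mul_distrib, Real.finset_prod_rpow _ _ (fun i _ => hA i),
    Real.finset_prod_rpow _ _ (fun i _ => hB i)]
  calc m = m ^ (1 - s) * m ^ s := by
        rw [← Real.rpow_add hm]; simp
    _ ≤ (∏ i, A i) ^ (1 - s) * (∏ i, B i) ^ s := by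
        apply mul_le_mul
        · exact Real.rpow_le_rpow hm.le ha (by linarith)
        · exact Real.rpow_le_rpow hm.le hb h0
        · exact Real.rpow_nonneg hm.le _
        · exact Real.rpow_nonneg (le_trans hm.le ha) _

lemma amgm {a b s : ℝ} (ha : 0 ≤ a) (hb : 0 ≤ b) (h0 : 0 ≤ s) (h1 : s ≤ 1) :
    a ^ (1 - s) * b ^ s ≤ (1 - s) * a + s * b :=
  Real.geom_mean_le_arith_mean2_weighted (by linarith) h0 ha hb (by ring)

/-- every component contains a zero. -/
lemma exists_root [Nonempty ι] (x : ι → ℝ) {y : ℝ} (hy : y ∈ KK x) :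
    ∃ i, y ∈ connectedComponentIn (KK x) (x i) := by
  by_contra hcon
  push_neg at hcon
  obtain ⟨a, b, hC⟩ : ∃ a b, connectedComponentIn (KK x) y = Icc a b := ⟨_, _, comp_eq_Icc x hy⟩
  have hyC : y ∈ Icc a b := hC ▸ mem_connectedComponentIn hy
  have hno : ∀ i, x i ∉ Icc a b := by
    intro i hi
    rw [← hC] at hi
    have := connectedComponentIn_eq hi
    apply hcon i
    rw [← this]
    exact mem_connectedComponentIn hy
  have hab : a ≤ b := le_trans hyC.1 hyC.2
  have hfin : (range x).Finite := finite_range x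
  have ha : a ∈ (range x)ᶜ := by
    rintro ⟨i, hi⟩; exact hno i (by rw [hi]; exact left_mem_Icc.2 hab)
  have hb : b ∈ (range x)ᶜ := by
    rintro ⟨i, hi⟩; exact hno i (by rw [hi]; exact right_mem_Icc.2 hab)
  obtain ⟨e1, he1, h1⟩ := Metric.isOpen_iff.1 hfin.isClosed.isOpen_compl a ha
  obtain ⟨e2, he2, h2⟩ := Metric.isOpen_iff.1 hfin.isClosed.isOpen_compl b hb
  obtain ⟨t1, ht1, ht1', hq1⟩ := outL x hy hC he1
  obtain ⟨t2, ht2, ht2', hq2⟩ := outR x hy hC he2
  have hfree : ∀ i, x i < t1 ∨ t2 < x i := by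
    intro i
    by_contra hc
    push_neg at hc
    rcases lt_or_ge (x i) a with h | h
    · have : x i ∈ Metric.ball a e1 := by
        rw [Metric.mem_ball, Real.dist_eq, abs_lt]; constructor <;> linarith [hc.1]
      exact h1 this ⟨i, rfl⟩
    · rcases lt_or_ge b (x i) with h' | h'
      · have : x i ∈ Metric.ball b e2 := by
          rw [Metric.mem_ball, Real.dist_eq, abs_lt]; constructor <;> linarith [hc.2]
        exact h2 this ⟨i, rfl⟩
      · exact hno i ⟨h, h'⟩
  have h12 : t1 < t2 := by linarith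
  set s := (y - t1) / (t2 - t1) with hs
  have hs0 : 0 ≤ s := div_nonneg (by linarith [hyC.1]) (by linarith)
  have hs1 : s ≤ 1 := by rw [hs, div_le_one (by linarith)]; linarith [hyC.2]
  have hys : y = (1 - s) * t1 + s * t2 := by
    have : s * (t2 - t1) = y - t1 := div_mul_cancel₀ _ (by linarith)
    linarith
  have hm1 : 1 < min (∏ i, |t1 - x i|) (∏ i, |t2 - x i|) := lt_min hq1 hq2
  have key := prod_ge (fun i => |t1 - x i|) (fun i => |t2 - x i|) (fun i => |y - x i|) hs0 hs1
    (lt_trans one_pos hm1) (fun i => abs_nonneg _) (fun i => abs_nonneg _)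
    (fun i => by
      refine le_trans (amgm (abs_nonneg _) (abs_nonneg _) hs0 hs1) ?_
      rcases hfree i with h | h
      · rw [abs_of_pos (by linarith), abs_of_pos (by linarith),
          abs_of_pos (by linarith [hyC.1])]
        rw [hys]; apply le_of_eq; ring
      · rw [abs_of_neg (by linarith), abs_of_neg (by linarith),
          abs_of_neg (by linarith [hyC.2])]
        rw [hys]; apply le_of_eq; ring)
    (min_le_left _ _) (min_le_right _ _)
  have : (1 : ℝ) < ∏ i, |y - x i| := lt_of_lt_of_le hm1 key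
  exact absurd hy (not_le.2 this)

end Pool.Agent.W805.LD
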