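import Pool.Agent.W805.LD.FC

set_option autoImplicit false

open Set MeasureTheory N460a421b

namespace Pool.Agent.W805.LD

/-- lemniscate of degree 2 -/
def E2 (a b : ℂ) : Set ℂ := {w | ‖w - a‖ * ‖w - b‖ ≤ 1}
/-- lemniscate of degree 3 -/
def E3 (a b c : ℂ) : Set ℂ := {w | ‖w - a‖ * ‖w - b‖ * ‖w - c‖ ≤ 1}

/-- unit direction making `b - a` real. -/
lemma exists_dir (a b : ℂ) : ∃ u : ℂ, ‖u‖ = 1 ∧ (u * (b - a)).im = 0 ∧ (u * (b - a)).re = ‖b - a‖ := by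
  by_cases h : b - a = 0
  · exact ⟨1, by simp, by simp [h], by simp [h]⟩
  · have hn : (‖b - a‖ : ℝ) ≠ 0 := norm_ne_zero_iff.2 h
    refine ⟨(starRingEnd ℂ) (b - a) / ‖b - a‖, ?_, ?_, ?_⟩
    · rw [norm_div, Complex.norm_conj, Complex.norm_real, norm_norm, div_self hn]
    · have : (starRingEnd ℂ) (b - a) / ‖b - a‖ * (b - a) = ((‖b - a‖ : ℝ) : ℂ) := by
        rw [div_mul_eq_mul_div, mul_comm, Complex.mul_conj, Complex.normSq_eq_norm_sq]
        push_cast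
        have : ((‖b - a‖ : ℝ) : ℂ) ≠ 0 := by exact_mod_cast hn
        field_simp
      rw [this, Complex.ofReal_im]
    · have : (starRingEnd ℂ) (b - a) / ‖b - a‖ * (b - a) = ((‖b - a‖ : ℝ) : ℂ) := by
        rw [div_mul_eq_mul_div, mul_comm, Complex.mul_conj, Complex.normSq_eq_norm_sq]
        push_cast
        have : ((‖b - a‖ : ℝ) : ℂ) ≠ 0 := by exact_mod_cast hn
        field_simp
      rw [this, Complex.ofReal_re]

lemma sqrt_two_bound : (2 : ℝ) ^ (1 - 1 / ((2 : ℕ) : ℝ)) ≤ 3 / 2 := by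
  have h : (1 - 1 / ((2 : ℕ) : ℝ)) = 1 / 2 := by norm_num
  rw [h, ← Real.sqrt_eq_rpow]
  rw [Real.sqrt_le_left (by norm_num)]
  norm_num

lemma pair (a b : ℂ) : FC (E2 a b) (3 / 2) := by
  obtain ⟨u, hu, h1, h2⟩ := exists_dir a b
  have := line (n := 2) (by norm_num) ![a, b] u hu (u * a).im (by
    intro i
    fin_cases i
    · rfl
    · simp only [mul_sub, Complex.sub_im] at h1
      simp
      simp at h1
      linarith)
  apply this.mono _ sqrt_two_bound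
  intro w hw
  simp only [mem_setOf_eq, Fin.prod_univ_two, norm_mul]
  exact hw

lemma case1 (a b c : ℂ) (h1 : 2 ≤ ‖c - a‖) (h2 : 2 ≤ ‖c - b‖) : FC (E3 a b c) 2 := by
  have hs : FC ({w : ℂ | ‖w - c‖ ≤ 1 / 2}) (1 / 2) :=
    FC.single (m := c) (by norm_num) (fun w hw => hw)
  apply ((pair a b).union hs).mono _ (by norm_num)
  intro w hw
  by_cases hw1 : 1 ≤ ‖w - c‖
  · left
    show ‖w - a‖ * ‖w - b‖ ≤ 1
    have hw' : ‖w - a‖ * ‖w - b‖ * ‖w - c‖ ≤ 1 := hw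
    have : ‖w - a‖ * ‖w - b‖ * 1 ≤ ‖w - a‖ * ‖w - b‖ * ‖w - c‖ :=
      mul_le_mul_of_nonneg_left hw1 (by positivity)
    linarith
  · right
    push Not at hw1
    show ‖w - c‖ ≤ 1 / 2
    by_contra hc
    push Not at hc
    have hw' : ‖w - a‖ * ‖w - b‖ * ‖w - c‖ ≤ 1 := hw
    have ha : 2 - ‖w - c‖ ≤ ‖w - a‖ := by
      have : ‖c - a‖ ≤ ‖w - c‖ + ‖w - a‖ := by
        calc ‖c - a‖ = ‖(w - a) - (w - c)‖ := by congr 1; ring
          _ ≤ ‖w - a‖ + ‖w - c‖ := norm_sub_le _ _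
          _ = _ := by ring
      linarith
    have hb : 2 - ‖w - c‖ ≤ ‖w - b‖ := by
      have : ‖c - b‖ ≤ ‖w - c‖ + ‖w - b‖ := by
        calc ‖c - b‖ = ‖(w - b) - (w - c)‖ := by congr 1; ring
          _ ≤ ‖w - b‖ + ‖w - c‖ := norm_sub_le _ _
          _ = _ := by ring
      linarith
    set s := ‖w - c‖ with hs
    have h3 : (2 - s) * (2 - s) * s ≤ ‖w - a‖ * ‖w - b‖ * s := by
      apply mul_le_mul_of_nonneg_right _ (by linarith)
      exact mul_le_mul ha hb (by linarith) (norm_nonneg _)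
    have h4 : (2 - s) * (2 - s) * s ≤ 1 := h3.trans hw'
    nlinarith [mul_pos (sub_pos.2 hw1) (sub_pos.2 hc), mul_pos (mul_pos (sub_pos.2 hw1) (sub_pos.2 hc)) (by linarith : (0:ℝ) < s)]

/-- near collinear, long side -/
lemma case2a (a b c : ℂ) (h1 : ‖b - a‖ < 2) (h2 : ‖b - c‖ < 2) (h3 : 12 ≤ ‖c - a‖ ^ 2) :
    FC (E3 a b c) 2 := by
  obtain ⟨u, hu, hi, hr⟩ := exists_dir a c
  have hL : (3.46 : ℝ) ≤ ‖c - a‖ := by
    by_contra h
    push Not at h
    nlinarith [norm_nonneg (c - a)]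
  have hab : (u * b).re - (u * a).re ≤ ‖b - a‖ := by
    have : (u * b).re - (u * a).re = (u * (b - a)).re := by rw [mul_sub, Complex.sub_re]
    rw [this]
    refine le_trans (Complex.re_le_norm _) ?_
    rw [norm_mul, hu, one_mul]
  have hbc : (u * c).re - (u * b).re ≤ ‖b - c‖ := by
    have : (u * c).re - (u * b).re = (u * (c - b)).re := by rw [mul_sub, Complex.sub_re]
    rw [this]
    refine le_trans (Complex.re_le_norm _) ?_
    rw [norm_mul, hu, one_mul, norm_sub_rev]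
  have hac : (u * c).re - (u * a).re = ‖c - a‖ := by
    rw [← hr, mul_sub, Complex.sub_re]
  set A := (u * a).re with hA
  set B := (u * b).re with hB
  set Cc := (u * c).re with hC
  have g1 : 1.46 ≤ B - A := by linarith
  have g2 : 1.46 ≤ Cc - B := by linarith
  have t1 : 1 < |(A + B) / 2 - A| * |(A + B) / 2 - B| * |(A + B) / 2 - Cc| := by
    rw [abs_of_pos (by linarith : 0 < (A + B) / 2 - A),
      abs_of_neg (by linarith : (A + B) / 2 - B < 0), abs_of_neg (by linarith : (A + B) / 2 - Cc < 0)]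
    have e1 : 0.73 ≤ (A + B) / 2 - A := by linarith
    have e2 : 0.73 ≤ -((A + B) / 2 - B) := by linarith
    have e3 : 2.19 ≤ -((A + B) / 2 - Cc) := by linarith
    have e4 : (0.73 : ℝ) * 0.73 ≤ ((A + B) / 2 - A) * -((A + B) / 2 - B) :=
      mul_le_mul e1 e2 (by norm_num) (by linarith)
    have e5 : (0.73 : ℝ) * 0.73 * 2.19 ≤ ((A + B) / 2 - A) * -((A + B) / 2 - B) * -((A + B) / 2 - Cc) :=
      mul_le_mul e4 e3 (by norm_num) (by nlinarith)
    exact lt_of_lt_of_le (by norm_num) e5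
  have t2 : 1 < |(B + Cc) / 2 - A| * |(B + Cc) / 2 - B| * |(B + Cc) / 2 - Cc| := by
    rw [abs_of_pos (by linarith : 0 < (B + Cc) / 2 - A),
      abs_of_pos (by linarith : 0 < (B + Cc) / 2 - B), abs_of_neg (by linarith : (B + Cc) / 2 - Cc < 0)]
    have e1 : 2.19 ≤ (B + Cc) / 2 - A := by linarith
    have e2 : 0.73 ≤ ((B + Cc) / 2 - B) := by linarith
    have e3 : 0.73 ≤ -((B + Cc) / 2 - Cc) := by linarith
    have e4 : (2.19 : ℝ) * 0.73 ≤ ((B + Cc) / 2 - A) * ((B + Cc) / 2 - B) :=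
      mul_le_mul e1 e2 (by norm_num) (by linarith)
    have e5 : (2.19 : ℝ) * 0.73 * 0.73 ≤ ((B + Cc) / 2 - A) * ((B + Cc) / 2 - B) * -((B + Cc) / 2 - Cc) :=
      mul_le_mul e4 e3 (by norm_num) (by nlinarith)
    exact lt_of_lt_of_le (by norm_num) e5
  have key := separated (n := 3) (by norm_num) ![a, b, c] u hu (by
    intro i j hij hne
    have hp : ∀ t : ℝ, ∏ k, |t - (u * (![a, b, c] : Fin 3 → ℂ) k).re|
        = |t - A| * |t - B| * |t - Cc| := by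
      intro t
      rw [Fin.prod_univ_three]
      rfl
    fin_cases i <;> fin_cases j
    · exact absurd rfl hne
    · exact ⟨(A + B) / 2, by show A ≤ _; linarith, by show _ ≤ B; linarith, by rw [hp]; exact t1⟩
    · exact ⟨(A + B) / 2, by show A ≤ _; linarith, by show _ ≤ Cc; linarith, by rw [hp]; exact t1⟩
    · have : B ≤ A := hij
      linarith
    · exact absurd rfl hne
    · exact ⟨(B + Cc) / 2, by show B ≤ _; linarith, by show _ ≤ Cc; linarith, by rw [hp]; exact t2⟩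
    · have : Cc ≤ A := hij
      linarith
    · have : Cc ≤ B := hij
      linarith
    · exact absurd rfl hne)
  apply key.mono
  · intro w hw
    simp only [mem_setOf_eq, Fin.prod_univ_three, norm_mul]
    exact hw
  · calc (2 : ℝ) ^ (1 - 1 / ((3 : ℕ) : ℝ)) ≤ 2 ^ (1 : ℝ) := by
          apply Real.rpow_le_rpow_of_exponent_le (by norm_num)
          norm_num
      _ = 2 := by simp

/-- middle range: a single disc around the midpoint of `a` and `c`. -/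
lemma case2b (a b c : ℂ) (h1 : ‖b - a‖ < 2) (h2 : ‖b - c‖ < 2) (h3 : ‖c - a‖ ^ 2 ≤ 12)
    (h4 : 6 ≤ ‖c - a‖ ^ 2) : FC (E3 a b c) 2 := by
  apply FC.single (m := (a + c) / 2) (by norm_num)
  intro w hw
  by_contra hcon
  push Not at hcon
  have hw' : ‖w - a‖ * ‖w - b‖ * ‖w - c‖ ≤ 1 := hw
  set m := (a + c) / 2 with hm
  -- parallelogram
  have hpar : 4 * ‖b - m‖ ^ 2 = 2 * ‖b - a‖ ^ 2 + 2 * ‖b - c‖ ^ 2 - ‖c - a‖ ^ 2 := by
    simp only [← Complex.normSq_eq_norm_sq, Complex.normSq_apply, hm]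
    simp
    ring
  have hk : ‖b - m‖ ^ 2 ≤ 4 - ‖c - a‖ ^ 2 / 4 := by
    have e1 : ‖b - a‖ ^ 2 ≤ 4 := by nlinarith [norm_nonneg (b - a)]
    have e2 : ‖b - c‖ ^ 2 ≤ 4 := by nlinarith [norm_nonneg (b - c)]
    linarith
  have hac : ‖w - m‖ ^ 2 - ‖c - a‖ ^ 2 / 4 ≤ ‖w - a‖ * ‖w - c‖ := by
    have e1 : (w - a) * (w - c) = (w - m) ^ 2 - ((c - a) / 2) ^ 2 := by
      rw [hm]; ring
    rw [← norm_mul, e1]
    have e2 : ‖(w - m) ^ 2‖ - ‖((c - a) / 2) ^ 2‖ ≤ ‖(w - m) ^ 2 - ((c - a) / 2) ^ 2‖ :=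
      norm_sub_norm_le _ _
    rw [norm_pow, norm_pow, norm_div] at e2
    have e3 : ‖(2 : ℂ)‖ = 2 := by simp
    rw [e3] at e2
    have e4 : (‖c - a‖ / 2) ^ 2 = ‖c - a‖ ^ 2 / 4 := by ring
    rw [e4] at e2
    exact e2
  have hb : ‖w - m‖ - ‖b - m‖ ≤ ‖w - b‖ := by
    have : ‖w - m‖ ≤ ‖w - b‖ + ‖b - m‖ := by
      calc ‖w - m‖ = ‖(w - b) + (b - m)‖ := by congr 1; ring
        _ ≤ _ := norm_add_le _ _
    linarith
  set μ := ‖b - m‖ with hμ
  set R := ‖w - m‖ with hR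
  set k := 4 - ‖c - a‖ ^ 2 / 4 with hkk
  have hk1 : 1 ≤ k := by linarith
  have hk2 : k ≤ 5 / 2 := by linarith
  have hμ0 : 0 ≤ μ := norm_nonneg _
  have hμ2 : μ ≤ 1.6 := by
    by_contra h
    push Not at h
    nlinarith
  have hkμ : 1 ≤ k * (2 - μ) := by
    rcases le_total μ 1 with h | h
    · nlinarith
    · have : μ ^ 2 * (2 - μ) ≤ k * (2 - μ) := mul_le_mul_of_nonneg_right hk (by linarith)
      have h5 : μ ^ 2 ≤ 5 / 2 := hk.trans hk2
      have h6 : μ ^ 2 - μ - 1 ≤ 0 := by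
        by_contra h7
        push Not at h7
        nlinarith
      nlinarith [mul_nonneg (sub_nonneg.2 h) (neg_nonneg.2 h6)]
  have hR2 : k < R ^ 2 - ‖c - a‖ ^ 2 / 4 := by
    have : 4 < R ^ 2 := by nlinarith
    linarith
  have h7 : k * (2 - μ) < (‖w - a‖ * ‖w - c‖) * ‖w - b‖ := by
    apply mul_lt_mul'' (lt_of_lt_of_le hR2 hac) (by linarith) (by linarith) (by linarith)
  have h8 : (‖w - a‖ * ‖w - c‖) * ‖w - b‖ = ‖w - a‖ * ‖w - b‖ * ‖w - c‖ := by ring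
  linarith

/-- short range: a single disc around the centroid. -/
lemma case2c (a b c : ℂ) (h1 : ‖b - a‖ < 2) (h2 : ‖b - c‖ < 2) (h3 : ‖c - a‖ ^ 2 ≤ 6) :
    FC (E3 a b c) 2 := by
  apply FC.single (m := (a + b + c) / 3) (by norm_num)
  intro w hw
  by_contra hcon
  push Not at hcon
  have hw' : ‖w - a‖ * ‖w - b‖ * ‖w - c‖ ≤ 1 := hw
  set g := (a + b + c) / 3 with hg
  have hT : ‖a - g‖ ^ 2 + ‖b - g‖ ^ 2 + ‖c - g‖ ^ 2
      = (‖b - a‖ ^ 2 + ‖b - c‖ ^ 2 + ‖c - a‖ ^ 2) / 3 := by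
    simp only [← Complex.normSq_eq_norm_sq, Complex.normSq_apply, hg]
    simp
    ring
  have hT2 : ‖a - g‖ ^ 2 + ‖b - g‖ ^ 2 + ‖c - g‖ ^ 2 ≤ 14 / 3 := by
    have e1 : ‖b - a‖ ^ 2 ≤ 4 := by nlinarith [norm_nonneg (b - a)]
    have e2 : ‖b - c‖ ^ 2 ≤ 4 := by nlinarith [norm_nonneg (b - c)]
    linarith
  set p : ℂ := -((a - g) ^ 2 + (b - g) ^ 2 + (c - g) ^ 2) / 2 with hp
  set q : ℂ := (a - g) * (b - g) * (c - g) with hq
  have hf : (w - a) * (w - b) * (w - c) = (w - g) ^ 3 + p * (w - g) - q := by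
    rw [hp, hq, hg]; ring
  have hp2 : ‖p‖ ≤ 7 / 3 := by
    have : ‖p‖ ≤ (‖a - g‖ ^ 2 + ‖b - g‖ ^ 2 + ‖c - g‖ ^ 2) / 2 := by
      rw [hp, norm_div, norm_neg]
      have e3 : ‖(2 : ℂ)‖ = 2 := by simp
      rw [e3]
      apply div_le_div_of_nonneg_right _ (by norm_num)
      refine (norm_add_le _ _).trans ?_
      rw [norm_pow]
      have := norm_add_le ((a - g) ^ 2) ((b - g) ^ 2)
      rw [norm_pow, norm_pow] at this
      linarith
    linarith
  have hq2 : ‖q‖ ≤ 2 := by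
    have e1 : ‖q‖ = ‖a - g‖ * ‖b - g‖ * ‖c - g‖ := by rw [hq, norm_mul, norm_mul]
    have e2 : ‖q‖ ^ 2 ≤ 4 := by
      rw [e1]
      have amg : ∀ x y z : ℝ, 0 ≤ x → 0 ≤ y → 0 ≤ z → x + y + z ≤ 14 / 3 → x * y * z ≤ 4 := by
        intro x y z hx hy hz h
        have h27 : 27 * (x * y * z) ≤ (x + y + z) ^ 3 := by
          nlinarith [mul_nonneg hx (sq_nonneg (y - z)), mul_nonneg hy (sq_nonneg (x - z)),
            mul_nonneg hz (sq_nonneg (x - y)), mul_nonneg hx (sq_nonneg (x - y)),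
            mul_nonneg hx (sq_nonneg (x - z)), mul_nonneg hy (sq_nonneg (y - x)),
            mul_nonneg hy (sq_nonneg (y - z)), mul_nonneg hz (sq_nonneg (z - x)),
            mul_nonneg hz (sq_nonneg (z - y))]
        have h3 : (x + y + z) ^ 3 ≤ (14 / 3) ^ 3 := pow_le_pow_left₀ (by positivity) h 3
        have : (14 / 3 : ℝ) ^ 3 ≤ 27 * 4 := by norm_num
        linarith
      have := amg (‖a - g‖ ^ 2) (‖b - g‖ ^ 2) (‖c - g‖ ^ 2) (by positivity) (by positivity)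
        (by positivity) hT2
      calc (‖a - g‖ * ‖b - g‖ * ‖c - g‖) ^ 2 = ‖a - g‖ ^ 2 * ‖b - g‖ ^ 2 * ‖c - g‖ ^ 2 := by ring
        _ ≤ 4 := this
    by_contra h
    push Not at h
    nlinarith
  have hlow : ‖w - g‖ ^ 3 - ‖p‖ * ‖w - g‖ - ‖q‖ ≤ ‖(w - a) * (w - b) * (w - c)‖ := by
    rw [hf]
    have e1 : ‖(w - g) ^ 3‖ ≤ ‖(w - g) ^ 3 + p * (w - g) - q‖ + ‖p * (w - g)‖ + ‖q‖ := by
      calc ‖(w - g) ^ 3‖ = ‖((w - g) ^ 3 + p * (w - g) - q) - p * (w - g) + q‖ := by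
            congr 1; ring
        _ ≤ ‖((w - g) ^ 3 + p * (w - g) - q) - p * (w - g)‖ + ‖q‖ := norm_add_le _ _
        _ ≤ ‖(w - g) ^ 3 + p * (w - g) - q‖ + ‖p * (w - g)‖ + ‖q‖ := by
            have := norm_sub_le ((w - g) ^ 3 + p * (w - g) - q) (p * (w - g))
            linarith
    rw [norm_pow, norm_mul] at e1
    linarith
  have e0 : ‖(w - a) * (w - b) * (w - c)‖ = ‖w - a‖ * ‖w - b‖ * ‖w - c‖ := by
    rw [norm_mul, norm_mul]
  rw [e0] at hlow
  set R := ‖w - g‖ with hR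
  have h5 : 2 * (4 - 7 / 3) ≤ R * (R ^ 2 - ‖p‖) := by
    apply mul_le_mul hcon.le _ (by norm_num) (by linarith)
    nlinarith
  nlinarith

lemma case2 (a b c : ℂ) (h1 : ‖b - a‖ < 2) (h2 : ‖b - c‖ < 2) : FC (E3 a b c) 2 := by
  rcases le_total 12 (‖c - a‖ ^ 2) with h | h
  · exact case2a a b c h1 h2 h
  · rcases le_total 6 (‖c - a‖ ^ 2) with h' | h'
    · exact case2b a b c h1 h2 h h'
    · exact case2c a b c h1 h2 h'

lemma E3_perm1 (a b c : ℂ) : E3 a b c = E3 b a c := by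
  ext w; simp only [E3, mem_setOf_eq]; rw [mul_comm ‖w - a‖ ‖w - b‖]

lemma E3_perm2 (a b c : ℂ) : E3 a b c = E3 a c b := by
  ext w; simp only [E3, mem_setOf_eq]; rw [mul_right_comm]

theorem cubic (a b c : ℂ) : FC (E3 a b c) 2 := by
  rcases lt_or_ge ‖b - a‖ 2 with hab | hab
  · rcases lt_or_ge ‖b - c‖ 2 with hbc | hbc
    · exact case2 a b c hab hbc
    · rcases lt_or_ge ‖c - a‖ 2 with hca | hca
      · -- a is the middle
        rw [E3_perm1]
        exact case2 b a c (by rwa [norm_sub_rev]) (by rwa [norm_sub_rev])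
      · exact case1 a b c hca (by rwa [norm_sub_rev])
  · rcases lt_or_ge ‖b - c‖ 2 with hbc | hbc
    · rcases lt_or_ge ‖c - a‖ 2 with hca | hca
      · -- c is the middle
        rw [E3_perm2]
        exact case2 a c b hca (by rwa [norm_sub_rev])
      · -- a is far
        have : E3 a b c = E3 b c a := by rw [E3_perm1 a b c, E3_perm2 b a c]
        rw [this]
        exact case1 b c a (by rwa [norm_sub_rev]) (by rwa [norm_sub_rev])
    · -- b is far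
      rw [E3_perm2]
      exact case1 a c b hab hbc

end Pool.Agent.W805.LD
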