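import Pool.Agent.W805.LD.Polya
import Pool.Agent.W805.LD.Comp

set_option autoImplicit false

open Set

namespace Pool.Agent.W805.LD

variable {ι : Type} [Fintype ι]

/-- A point of the lemniscate above a component is in a stadium-like region. -/
lemma disc (x y : ι → ℝ) {a b c h X Y : ℝ} (hab : a < b) (hX : X ∈ Icc a b)
    (ha : 1 ≤ ∏ i, |a - x i|) (hb : 1 ≤ ∏ i, |b - x i|)
    (hS : ∃ i, x i ∈ Icc a b) (hh : ∀ i, x i ∈ Icc a b → |y i - c| ≤ h)
    (hE : ∏ i, ((X - x i) ^ 2 + (Y - y i) ^ 2) ≤ 1) :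
    |Y - c| ≤ h + Real.sqrt ((X - a) * (b - X)) := by
  classical
  by_contra hcon
  push Not at hcon
  set r := Real.sqrt ((X - a) * (b - X)) with hr
  have hr0 : 0 ≤ r := Real.sqrt_nonneg _
  have hr2 : r ^ 2 = (X - a) * (b - X) :=
    Real.sq_sqrt (mul_nonneg (by linarith [hX.1]) (by linarith [hX.2]))
  set s := (X - a) / (b - a) with hs
  have hs0 : 0 ≤ s := div_nonneg (by linarith [hX.1]) (by linarith)
  have hs1 : s ≤ 1 := by rw [hs, div_le_one (by linarith)]; linarith [hX.2]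
  have hXs : X = (1 - s) * a + s * b := by
    have : s * (b - a) = X - a := div_mul_cancel₀ _ (by linarith)
    linarith
  have hane : ∀ i, a ≠ x i := by
    intro i hi
    have : ∏ j, |a - x j| = 0 := Finset.prod_eq_zero (Finset.mem_univ i) (by simp [hi])
    linarith
  have hbne : ∀ i, b ≠ x i := by
    intro i hi
    have : ∏ j, |b - x j| = 0 := Finset.prod_eq_zero (Finset.mem_univ i) (by simp [hi])
    linarith
  have ha2 : 1 ≤ ∏ i, (a - x i) ^ 2 := by
    have : ∏ i, (a - x i) ^ 2 = (∏ i, |a - x i|) ^ 2 := by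
      rw [← Finset.prod_pow]; simp
    rw [this]; exact one_le_pow₀ ha
  have hb2 : 1 ≤ ∏ i, (b - x i) ^ 2 := by
    have : ∏ i, (b - x i) ^ 2 = (∏ i, |b - x i|) ^ 2 := by
      rw [← Finset.prod_pow]; simp
    rw [this]; exact one_le_pow₀ hb
  let V : ι → ℝ := fun i => if x i ∈ Icc a b then (X - x i) ^ 2 + r ^ 2 else (X - x i) ^ 2
  have hVin : ∀ i, (X - x i) ^ 2 + r ^ 2 = (1 - s) * (a - x i) ^ 2 + s * (b - x i) ^ 2 := by
    intro i
    rw [hr2, hXs]; ring
  have hV : ∀ i, ((a - x i) ^ 2) ^ (1 - s) * ((b - x i) ^ 2) ^ s ≤ V i := by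
    intro i
    by_cases hi : x i ∈ Icc a b
    · simp only [V, if_pos hi]
      rw [hVin i]
      exact amgm (sq_nonneg _) (sq_nonneg _) hs0 hs1
    · simp only [V, if_neg hi]
      have e1 : ((a - x i) ^ 2) ^ (1 - s) = (|a - x i| ^ (1 - s)) ^ 2 := by
        rw [← sq_abs, ← Real.rpow_natCast, ← Real.rpow_natCast, ← Real.rpow_mul (abs_nonneg _),
          ← Real.rpow_mul (abs_nonneg _)]
        congr 1; ring
      have e2 : ((b - x i) ^ 2) ^ s = (|b - x i| ^ s) ^ 2 := by
        rw [← sq_abs, ← Real.rpow_natCast, ← Real.rpow_natCast, ← Real.rpow_mul (abs_nonneg _),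
          ← Real.rpow_mul (abs_nonneg _)]
        congr 1; ring
      rw [e1, e2, ← mul_pow]
      have e3 : |a - x i| ^ (1 - s) * |b - x i| ^ s ≤ |X - x i| := by
        refine le_trans (amgm (abs_nonneg _) (abs_nonneg _) hs0 hs1) ?_
        have hi' : x i < a ∨ b < x i := by
          by_contra hc
          push Not at hc
          exact hi ⟨hc.1, hc.2⟩
        rcases hi' with h' | h'
        · rw [abs_of_pos (by linarith), abs_of_pos (by linarith), abs_of_pos (by linarith [hX.1])]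
          rw [hXs]; apply le_of_eq; ring
        · rw [abs_of_neg (by linarith), abs_of_neg (by linarith), abs_of_neg (by linarith [hX.2])]
          rw [hXs]; apply le_of_eq; ring
      have e4 : 0 ≤ |a - x i| ^ (1 - s) * |b - x i| ^ s :=
        mul_nonneg (Real.rpow_nonneg (abs_nonneg _) _) (Real.rpow_nonneg (abs_nonneg _) _)
      calc (|a - x i| ^ (1 - s) * |b - x i| ^ s) ^ 2 ≤ |X - x i| ^ 2 :=
            pow_le_pow_left₀ e4 e3 2
        _ = (X - x i) ^ 2 := sq_abs _
  have h1 : 1 ≤ ∏ i, V i := prod_ge (fun i => (a - x i) ^ 2) (fun i => (b - x i) ^ 2) V hs0 hs1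
    one_pos (fun i => sq_nonneg _) (fun i => sq_nonneg _) hV ha2 hb2
  have hVpos : ∀ i, 0 < V i := by
    intro i
    by_cases hi : x i ∈ Icc a b
    · simp only [V, if_pos hi]
      rw [hVin i]
      have p1 : 0 < (a - x i) ^ 2 := by
        have := sub_ne_zero.2 (hane i); positivity
      have p2 : 0 < (b - x i) ^ 2 := by
        have := sub_ne_zero.2 (hbne i); positivity
      rcases eq_or_lt_of_le hs0 with h0 | h0
      · rw [← h0]; linarith
      · have : 0 ≤ (1 - s) * (a - x i) ^ 2 := mul_nonneg (by linarith) p1.le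
        have : 0 < s * (b - x i) ^ 2 := mul_pos h0 p2
        linarith
    · simp only [V, if_neg hi]
      have : X - x i ≠ 0 := by
        intro h0
        apply hi
        have : x i = X := by linarith
        rw [this]; exact hX
      positivity
  have hlt : ∏ i, V i < ∏ i, ((X - x i) ^ 2 + (Y - y i) ^ 2) := by
    have hin : ∀ i, x i ∈ Icc a b → V i < (X - x i) ^ 2 + (Y - y i) ^ 2 := by
      intro i hi
      simp only [V, if_pos hi]
      have h2 := hh i hi
      have h3 : r < |Y - y i| := by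
        have : |Y - c| ≤ |Y - y i| + |y i - c| := abs_sub_le _ _ _
        linarith
      have h4 : r ^ 2 < |Y - y i| ^ 2 := pow_lt_pow_left₀ h3 hr0 (by norm_num)
      rw [sq_abs] at h4
      linarith
    apply Finset.prod_lt_prod (fun i _ => hVpos i)
    · intro i _
      by_cases hi : x i ∈ Icc a b
      · exact (hin i hi).le
      · simp only [V, if_neg hi]
        nlinarith [sq_nonneg (Y - y i)]
    · obtain ⟨i, hi⟩ := hS
      exact ⟨i, Finset.mem_univ _, hin i hi⟩
  linarith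

/-- hence in a disc. -/
lemma disc' (x y : ι → ℝ) {a b c h X Y : ℝ} (hab : a < b) (hX : X ∈ Icc a b)
    (ha : 1 ≤ ∏ i, |a - x i|) (hb : 1 ≤ ∏ i, |b - x i|)
    (hS : ∃ i, x i ∈ Icc a b) (hh : ∀ i, x i ∈ Icc a b → |y i - c| ≤ h)
    (hE : ∏ i, ((X - x i) ^ 2 + (Y - y i) ^ 2) ≤ 1) :
    (X - (a + b) / 2) ^ 2 + (Y - c) ^ 2 ≤ ((b - a) / 2 + h) ^ 2 := by
  have h1 := disc x y hab hX ha hb hS hh hE
  set r := Real.sqrt ((X - a) * (b - X)) with hr
  have hr0 : 0 ≤ r := Real.sqrt_nonneg _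
  have hr2 : r ^ 2 = (X - a) * (b - X) :=
    Real.sq_sqrt (mul_nonneg (by linarith [hX.1]) (by linarith [hX.2]))
  have hh0 : 0 ≤ h := by
    obtain ⟨i, hi⟩ := hS
    exact le_trans (abs_nonneg _) (hh i hi)
  have h2 : (Y - c) ^ 2 ≤ (h + r) ^ 2 := by
    rw [← sq_abs (Y - c)]
    exact pow_le_pow_left₀ (abs_nonneg _) h1 2
  have h3 : r ≤ (b - a) / 2 := by
    apply Real.sqrt_le_iff.2
    constructor
    · linarith
    · nlinarith [sq_nonneg (X - (a + b) / 2)]
  nlinarith [mul_nonneg hh0 (sub_nonneg.2 h3)]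

end Pool.Agent.W805.LD
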