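import Pool.Agent.W805.LD.Main

set_option autoImplicit false

open Set MeasureTheory N460a421b

namespace Pool.Agent.W805.LD

/-- finite disc covers of total radius at most `r`. -/
def FC (S : Set ℂ) (r : ℝ) : Prop :=
  ∃ (ι : Type) (_ : Fintype ι) (c : ι → ℂ) (R : ι → ℝ),
    (∀ i, 0 < R i) ∧ ∑ i, R i ≤ r ∧ ∀ w ∈ S, ∃ i, ‖w - c i‖ ≤ R i

lemma FC.mono {S T : Set ℂ} {r q : ℝ} (h : FC T r) (hS : S ⊆ T) (hr : r ≤ q) : FC S q := by
  obtain ⟨ι, i1, c, R, h1, h2, h3⟩ := h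
  exact ⟨ι, i1, c, R, h1, h2.trans hr, fun w hw => h3 w (hS hw)⟩

lemma FC.union {S T : Set ℂ} {r q : ℝ} (h : FC S r) (h' : FC T q) : FC (S ∪ T) (r + q) := by
  obtain ⟨ι, i1, c, R, h1, h2, h3⟩ := h
  obtain ⟨ι', i1', c', R', h1', h2', h3'⟩ := h'
  refine ⟨ι ⊕ ι', inferInstance, Sum.elim c c', Sum.elim R R', ?_, ?_, ?_⟩
  · rintro (i | i)
    · exact h1 i
    · exact h1' i
  · rw [Fintype.sum_sum_type]
    simp only [Sum.elim_inl, Sum.elim_inr]
    linarith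
  · rintro w (hw | hw)
    · obtain ⟨i, hi⟩ := h3 w hw
      exact ⟨Sum.inl i, hi⟩
    · obtain ⟨i, hi⟩ := h3' w hw
      exact ⟨Sum.inr i, hi⟩

lemma FC.single {S : Set ℂ} {m : ℂ} {R : ℝ} (hR : 0 < R) (h : ∀ w ∈ S, ‖w - m‖ ≤ R) :
    FC S R :=
  ⟨Unit, inferInstance, fun _ => m, fun _ => R, fun _ => hR, by simp, fun w hw => ⟨(), h w hw⟩⟩

lemma FC.scale {S : Set ℂ} {r l : ℝ} (hl : 0 < l) (h : FC S r) :
    FC {w | w / (l : ℂ) ∈ S} (l * r) := by
  obtain ⟨ι, i1, c, R, h1, h2, h3⟩ := h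
  refine ⟨ι, i1, fun i => (l : ℂ) * c i, fun i => l * R i, fun i => mul_pos hl (h1 i), ?_, ?_⟩
  · rw [← Finset.mul_sum]
    exact mul_le_mul_of_nonneg_left h2 hl.le
  · intro w hw
    obtain ⟨i, hi⟩ := h3 _ hw
    refine ⟨i, ?_⟩
    have hl' : (l : ℂ) ≠ 0 := by exact_mod_cast hl.ne'
    have e : w - (l : ℂ) * c i = (l : ℂ) * (w / (l : ℂ) - c i) := by
      field_simp
    rw [e, norm_mul, Complex.norm_real, Real.norm_of_nonneg hl.le]
    exact mul_le_mul_of_nonneg_left hi hl.le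

lemma FC.toCover {S : Set ℂ} {r : ℝ} (h : FC S r) :
    ∃ (ι : Type), Nonempty (BoundedDiscCover S r ι) := by
  obtain ⟨ι, i1, c, R, h1, h2, h3⟩ := h
  refine ⟨ι, ⟨⟨c, R, ?_, (hasSum_fintype _).summable, ?_, h1⟩⟩⟩
  · intro w hw
    obtain ⟨i, hi⟩ := h3 w hw
    rw [mem_iUnion]
    exact ⟨i, by rw [Metric.mem_closedBall, Complex.dist_eq]; exact hi⟩
  · rw [tsum_fintype]; exact h2

lemma FC.ofCover {S : Set ℂ} {r : ℝ} {ι : Type} [i1 : Fintype ι]
    (h : Nonempty (BoundedDiscCover S r ι)) : FC S r := by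
  obtain ⟨H⟩ := h
  refine ⟨ι, i1, H.C, H.R, H.h_pos, ?_, ?_⟩
  · have := H.h_bdd
    rwa [tsum_fintype] at this
  · intro w hw
    have := H.h_cover hw
    rw [mem_iUnion] at this
    obtain ⟨i, hi⟩ := this
    exact ⟨i, by rw [Metric.mem_closedBall, Complex.dist_eq] at hi; exact hi⟩

/-- zeros on a line. -/
lemma line {n : ℕ} (hn : 0 < n) (z : Fin n → ℂ) (u : ℂ) (hu : ‖u‖ = 1) (c : ℝ)
    (hh : ∀ i, (u * z i).im = c) :
    FC {w : ℂ | ‖∏ i, (w - z i)‖ ≤ 1} ((2 : ℝ) ^ (1 - 1 / (n : ℝ))) := by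
  have := cover hn z u hu (fun _ => c) (fun _ => 0) (fun i => by rw [hh i]; simp)
  apply (FC.ofCover this).mono (Subset.refl _)
  simp

/-- separated zeros. -/
lemma separated {n : ℕ} (hn : 0 < n) (z : Fin n → ℂ) (u : ℂ) (hu : ‖u‖ = 1)
    (hsep : ∀ i j, (u * z i).re ≤ (u * z j).re → z i ≠ z j →
      ∃ t : ℝ, (u * z i).re ≤ t ∧ t ≤ (u * z j).re ∧ 1 < ∏ k, |t - (u * z k).re|) :
    FC {w : ℂ | ‖∏ i, (w - z i)‖ ≤ 1} ((2 : ℝ) ^ (1 - 1 / (n : ℝ))) := by
  classical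
  let cp : Fin n → Set ℝ := fun i => connectedComponentIn (KK fun j => (u * z j).re) (u * z i).re
  have hself : ∀ i, (u * z i).re ∈ cp i := fun i =>
    mem_connectedComponentIn (root_mem (fun j => (u * z j).re) i)
  have key : ∀ i j, (u * z i).re ≤ (u * z j).re → cp i = cp j → z i = z j := by
    intro i j hij hc
    by_contra hne
    obtain ⟨t, h1, h2, h3⟩ := hsep i j hij hne
    have hi := hself i
    have hj := hself j
    rw [← hc] at hj
    have hoc : (cp i).OrdConnected := isPreconnected_connectedComponentIn.ordConnected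
    have ht : t ∈ cp i := hoc.out hi hj ⟨h1, h2⟩
    have ht2 : t ∈ KK fun j => (u * z j).re := connectedComponentIn_subset _ _ ht
    exact absurd ht2 (not_le.2 h3)
  have key' : ∀ i j, cp i = cp j → z i = z j := by
    intro i j hc
    rcases le_total (u * z i).re (u * z j).re with h | h
    · exact key i j h hc
    · exact (key j i h hc.symm).symm
  let c : Set ℝ → ℝ := fun D => if hD : ∃ i, cp i = D then (u * z hD.choose).im else 0
  have hc : ∀ i, c (cp i) = (u * z i).im := by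
    intro i
    have hD : ∃ j, cp j = cp i := ⟨i, rfl⟩
    simp only [c, dif_pos hD]
    rw [key' _ _ hD.choose_spec]
  have := cover hn z u hu c (fun _ => 0) (fun i => by
    have := hc i
    simp only [cp] at this
    rw [this]; simp)
  apply (FC.ofCover this).mono (Subset.refl _)
  simp

end Pool.Agent.W805.LD
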