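import Pool.Agent.W805.LD.Cluster

set_option autoImplicit false

open Set MeasureTheory N460a421b

namespace Pool.Agent.W805.LD

lemma prod_lower (s : Multiset ℂ) (w : ℂ) {D : ℝ} (hD : 0 ≤ D) (h : ∀ a ∈ s, D ≤ ‖w - a‖) :
    D ^ (Multiset.card s) ≤ (s.map fun a => ‖w - a‖).prod := by
  induction s using Multiset.induction_on with
  | empty => simp
  | cons a s ih =>
    simp only [Multiset.map_cons, Multiset.prod_cons, Multiset.card_cons, pow_succ']
    exact mul_le_mul (h a (Multiset.mem_cons_self a s))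
      (ih fun b hb => h b (Multiset.mem_cons_of_mem hb)) (by positivity) (norm_nonneg _)

lemma prod_nonneg' (s : Multiset ℂ) (w : ℂ) : 0 ≤ (s.map fun a => ‖w - a‖).prod := by
  have := prod_lower s w (D := 0) le_rfl (fun a _ => norm_nonneg _)
  refine le_trans ?_ this
  positivity

lemma prod_lower_lt (s : Multiset ℂ) (w : ℂ) {D : ℝ} (hD : 0 < D) (hs : s ≠ 0)
    (h : ∀ a ∈ s, D < ‖w - a‖) :
    D ^ (Multiset.card s) < (s.map fun a => ‖w - a‖).prod := by
  obtain ⟨a, ha⟩ := Multiset.exists_mem_of_ne_zero hs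
  obtain ⟨t, rfl⟩ := Multiset.exists_cons_of_mem ha
  simp only [Multiset.map_cons, Multiset.prod_cons, Multiset.card_cons, pow_succ']
  have h1 := prod_lower t w hD.le (fun b hb => (h b (Multiset.mem_cons_of_mem hb)).le)
  have h2 := h a (Multiset.mem_cons_self a t)
  exact mul_lt_mul h2 h1 (by positivity) (norm_nonneg _)

lemma exists_near (s : Multiset ℂ) (w : ℂ) {D : ℝ} (hD : 0 < D) (hs : s ≠ 0)
    (h : (s.map fun a => ‖w - a‖).prod ≤ D ^ (Multiset.card s)) : ∃ a ∈ s, ‖w - a‖ ≤ D := by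
  by_contra hcon
  push Not at hcon
  exact absurd h (not_le.2 (prod_lower_lt s w hD hs hcon))

lemma far_of_near {a b w : ℂ} {r : ℝ} (h : 3 ≤ ‖a - b‖) (hw : ‖w - a‖ ≤ r) :
    3 - r ≤ ‖w - b‖ := by
  have : ‖a - b‖ ≤ ‖w - b‖ + ‖w - a‖ := by
    calc ‖a - b‖ = ‖(w - b) - (w - a)‖ := by congr 1; ring
      _ ≤ _ := norm_sub_le _ _
  linarith

/-- the numerical inequality. -/
lemma num {r : ℝ} (hr : 1 ≤ r) : (2 / 5 : ℝ) ^ r + (1 / 2 : ℝ) ^ (1 / r) ≤ 1 := by
  have hr0 : 0 < r := by linarith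
  have h1 : (1 / 2 : ℝ) ^ (1 / r) ≤ 1 - 1 / (2 * r) := by
    have := rpow_one_add_le_one_add_mul_self (s := -(1 / 2 : ℝ)) (by norm_num)
      (p := 1 / r) (by positivity) (by rw [div_le_one hr0]; exact hr)
    have e : (1 + -(1 / 2 : ℝ)) = 1 / 2 := by norm_num
    rw [e] at this
    refine this.trans (le_of_eq ?_)
    field_simp
    ring
  have h2 : 2 * r ≤ (5 / 2 : ℝ) ^ r := by
    rcases le_total r 2 with h | h
    · have := one_add_mul_self_le_rpow_one_add (s := (3 / 2 : ℝ)) (by norm_num) hr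
      have e : (1 + (3 / 2 : ℝ)) = 5 / 2 := by norm_num
      rw [e] at this
      linarith
    · have := one_add_mul_self_le_rpow_one_add (s := (21 / 4 : ℝ)) (by norm_num)
        (p := r / 2) (by linarith)
      have e : (1 + (21 / 4 : ℝ)) = (5 / 2) ^ (2 : ℝ) := by norm_num
      rw [e, ← Real.rpow_mul (by norm_num)] at this
      have e2 : 2 * (r / 2) = r := by ring
      rw [e2] at this
      linarith
  have h3 : (2 / 5 : ℝ) ^ r ≤ 1 / (2 * r) := by
    have e : (2 / 5 : ℝ) = (5 / 2)⁻¹ := by norm_num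
    rw [e, Real.inv_rpow (by norm_num), inv_eq_one_div]
    exact one_div_le_one_div_of_le (by positivity) h2
  linarith

lemma join_aux (s t : Multiset ℂ) (hs : s ≠ 0) (ht : t ≠ 0) (h1 : PS s) (h2 : PS t)
    (hsep : ∀ a ∈ s, ∀ b ∈ t, 3 ≤ ‖a - b‖) (hcard : Multiset.card s ≤ Multiset.card t) :
    PS (s + t) := by
  intro c hc hc1
  have hm : 0 < Multiset.card s := Multiset.card_pos.2 hs
  have hk : 0 < Multiset.card t := Multiset.card_pos.2 ht
  set m := Multiset.card s with hmd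
  set k := Multiset.card t with hkd
  have hm' : (0 : ℝ) < m := by exact_mod_cast hm
  have hk' : (0 : ℝ) < k := by exact_mod_cast hk
  have hc2 : 0 < c * (2 / 5 : ℝ) ^ k := by positivity
  have hc2' : c * (2 / 5 : ℝ) ^ k ≤ 1 :=
    mul_le_one₀ hc1 (by positivity) (pow_le_one₀ (by norm_num) (by norm_num))
  have hc3 : 0 < c * (1 / 2 : ℝ) ^ m := by positivity
  have hc3' : c * (1 / 2 : ℝ) ^ m ≤ 1 :=
    mul_le_one₀ hc1 (by positivity) (pow_le_one₀ (by norm_num) (by norm_num))
  apply ((h1 _ hc2 hc2').union (h2 _ hc3 hc3')).mono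
  · intro w hw
    have hw1 : (s.map fun a => ‖w - a‖).prod * (t.map fun a => ‖w - a‖).prod ≤ c := by
      have : ((s + t).map fun a => ‖w - a‖).prod ≤ c := hw
      rwa [Multiset.map_add, Multiset.prod_add] at this
    set P := (s.map fun a => ‖w - a‖).prod with hP
    set Q := (t.map fun a => ‖w - a‖).prod with hQ
    have hP0 : 0 ≤ P := prod_nonneg' s w
    have hQ0 : 0 ≤ Q := prod_nonneg' t w
    have hst : s + t ≠ 0 := by
      intro h0
      apply hs
      exact (add_eq_zero.1 h0).1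
    obtain ⟨a, ha, haw⟩ := exists_near (s + t) w one_pos hst (by
      rw [one_pow, Multiset.map_add, Multiset.prod_add]
      exact hw1.trans hc1)
    rw [Multiset.mem_add] at ha
    rcases ha with ha | ha
    · left
      -- near s
      have q1 : (2 : ℝ) ^ k ≤ Q := prod_lower t w (by norm_num) (fun b hb => by
        have := far_of_near (hsep a ha b hb) haw
        linarith)
      have p1 : P ≤ (1 / 2 : ℝ) ^ m := by
        have e1 : P * 2 ^ k ≤ 1 := (mul_le_mul_of_nonneg_left q1 hP0).trans (hw1.trans hc1)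
        have e2 : (2 : ℝ) ^ m ≤ 2 ^ k := pow_le_pow_right₀ (by norm_num) hcard
        have e3 : P * 2 ^ m ≤ 1 := (mul_le_mul_of_nonneg_left e2 hP0).trans e1
        rw [one_div, inv_pow, ← one_div, le_div_iff₀ (by positivity)]
        exact e3
      obtain ⟨a', ha', haw'⟩ := exists_near s w (by norm_num : (0 : ℝ) < 1 / 2) hs p1
      have q2 : (5 / 2 : ℝ) ^ k ≤ Q := prod_lower t w (by norm_num) (fun b hb => by
        have := far_of_near (hsep a' ha' b hb) haw'
        linarith)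
      show P ≤ c * (2 / 5 : ℝ) ^ k
      have e1 : P * (5 / 2 : ℝ) ^ k ≤ c := (mul_le_mul_of_nonneg_left q2 hP0).trans hw1
      have e2 : (2 / 5 : ℝ) ^ k = 1 / (5 / 2 : ℝ) ^ k := by
        rw [one_div, ← inv_pow]; norm_num
      rw [e2, mul_one_div, le_div_iff₀ (by positivity)]
      exact e1
    · right
      have p1 : (2 : ℝ) ^ m ≤ P := prod_lower s w (by norm_num) (fun b hb => by
        have h5 : 3 ≤ ‖a - b‖ := by rw [norm_sub_rev]; exact hsep b hb a ha
        have := far_of_near h5 haw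
        linarith)
      show Q ≤ c * (1 / 2 : ℝ) ^ m
      have e1 : (2 : ℝ) ^ m * Q ≤ c := (mul_le_mul_of_nonneg_right p1 hQ0).trans hw1
      have e2 : (1 / 2 : ℝ) ^ m = 1 / (2 : ℝ) ^ m := by
        rw [one_div, one_div, ← inv_pow]
      rw [e2, mul_one_div, le_div_iff₀ (by positivity)]
      linarith
  · have hcc : (Multiset.card (s + t) : ℝ) = m + k := by
      rw [Multiset.card_add]; push_cast; rfl
    rw [hcc]
    have r1 : (c * (2 / 5 : ℝ) ^ k) ^ (1 / (m : ℝ))
        = c ^ (1 / (m : ℝ)) * (2 / 5 : ℝ) ^ ((k : ℝ) / m) := by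
      rw [Real.mul_rpow hc.le (by positivity), ← Real.rpow_natCast, ← Real.rpow_mul (by norm_num)]
      congr 2
      ring
    have r2 : (c * (1 / 2 : ℝ) ^ m) ^ (1 / (k : ℝ))
        = c ^ (1 / (k : ℝ)) * (1 / 2 : ℝ) ^ (1 / ((k : ℝ) / m)) := by
      rw [Real.mul_rpow hc.le (by positivity), ← Real.rpow_natCast, ← Real.rpow_mul (by norm_num)]
      congr 2
      field_simp
    rw [r1, r2]
    have r3 : c ^ (1 / (m : ℝ)) ≤ c ^ (1 / ((m : ℝ) + k)) := by
      apply Real.rpow_le_rpow_of_exponent_ge hc hc1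
      exact one_div_le_one_div_of_le hm' (by linarith)
    have r4 : c ^ (1 / (k : ℝ)) ≤ c ^ (1 / ((m : ℝ) + k)) := by
      apply Real.rpow_le_rpow_of_exponent_ge hc hc1
      exact one_div_le_one_div_of_le hk' (by linarith)
    have hr : 1 ≤ (k : ℝ) / m := by
      rw [le_div_iff₀ hm', one_mul]; exact_mod_cast hcard
    have r5 := num hr
    set X := (2 / 5 : ℝ) ^ ((k : ℝ) / m) with hX
    set Y := (1 / 2 : ℝ) ^ (1 / ((k : ℝ) / m)) with hY
    have hX0 : 0 ≤ X := by positivity
    have hY0 : 0 ≤ Y := by positivity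
    set T := c ^ (1 / ((m : ℝ) + k)) with hT
    have hT0 : 0 ≤ T := by positivity
    have r6 := mul_le_mul_of_nonneg_right r3 hX0
    have r7 := mul_le_mul_of_nonneg_right r4 hY0
    have r8 : T * (X + Y) ≤ T * 1 := mul_le_mul_of_nonneg_left r5 hT0
    nlinarith

/-- The scaled covering property is inherited by products whose zeros are at distance `≥ 3`. -/
theorem join (s t : Multiset ℂ) (hs : s ≠ 0) (ht : t ≠ 0) (h1 : PS s) (h2 : PS t)
    (hsep : ∀ a ∈ s, ∀ b ∈ t, 3 ≤ ‖a - b‖) : PS (s + t) := by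
  rcases le_total (Multiset.card s) (Multiset.card t) with h | h
  · exact join_aux s t hs ht h1 h2 hsep h
  · rw [add_comm]
    exact join_aux t s ht hs h2 h1 (fun b hb a ha => by rw [norm_sub_rev]; exact hsep a ha b hb) h

end Pool.Agent.W805.LD
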