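import Pool.Agent.W805.LD.Disc
import Pool.Prelude.Def_F_472fcd70

set_option autoImplicit false

open Set MeasureTheory N460a421b

namespace Pool.Agent.W805.LD

open Classical in
/-- the components of `KK x` which contain the `x i` (these are all the components). -/
noncomputable def JJ {ι : Type} [Fintype ι] (x : ι → ℝ) : Finset (Set ℝ) :=
  Finset.univ.image (fun i => connectedComponentIn (KK x) (x i))

lemma JJ_sum {ι : Type} [Fintype ι] [Nonempty ι] (x : ι → ℝ) :
    ∑ C ∈ JJ x, (sSup C - sInf C) / 2 ≤ (2 : ℝ) ^ (1 - 1 / (Fintype.card ι : ℝ)) := by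
  classical
  have hcomp : ∀ C ∈ JJ x, ∃ i, connectedComponentIn (KK x) (x i) = C := by
    intro C hC
    simp only [JJ, Finset.mem_image, Finset.mem_univ, true_and] at hC
    exact hC
  have hIcc : ∀ C ∈ JJ x, C = Icc (sInf C) (sSup C) := by
    intro C hC
    obtain ⟨i, rfl⟩ := hcomp C hC
    exact comp_eq_Icc x (root_mem x i)
  have hne : ∀ C ∈ JJ x, sInf C ≤ sSup C := by
    intro C hC
    obtain ⟨i, rfl⟩ := hcomp C hC
    have h1 : x i ∈ connectedComponentIn (KK x) (x i) := mem_connectedComponentIn (root_mem x i)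
    rw [comp_eq_Icc x (root_mem x i)] at h1
    exact le_trans h1.1 h1.2
  have hvol : ∀ C ∈ JJ x, volume.real C = sSup C - sInf C := by
    intro C hC
    have h1 := hIcc C hC
    have h2 := hne C hC
    calc volume.real C = volume.real (Icc (sInf C) (sSup C)) := by rw [← h1]
      _ = sSup C - sInf C := Real.volume_real_Icc_of_le h2
  have hdisj : (↑(JJ x) : Set (Set ℝ)).PairwiseDisjoint id := by
    intro C hC D hD hCD
    obtain ⟨i, rfl⟩ := hcomp C hC
    obtain ⟨j, rfl⟩ := hcomp D hD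
    rw [Function.onFun, id, id, Set.disjoint_left]
    intro t ht1 ht2
    exact hCD ((connectedComponentIn_eq ht1).trans (connectedComponentIn_eq ht2).symm)
  have hsub : (⋃ C ∈ JJ x, id C) ⊆ KK x := by
    intro t ht
    simp only [mem_iUnion, id] at ht
    obtain ⟨C, hC, ht⟩ := ht
    obtain ⟨i, rfl⟩ := hcomp C hC
    exact connectedComponentIn_subset _ _ ht
  have hfin : volume (KK x) ≠ ⊤ := (KK_compact x).measure_lt_top.ne
  have h1 : ∑ C ∈ JJ x, volume.real C ≤ volume.real (KK x) := by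
    calc ∑ C ∈ JJ x, volume.real C = volume.real (⋃ C ∈ JJ x, id C) := by
          have hm : ∀ C ∈ JJ x, MeasurableSet (id C) := by
            intro C hC
            rw [id, hIcc C hC]; exact measurableSet_Icc
          have hft : ∀ C ∈ JJ x, volume (id C) ≠ ⊤ := by
            intro C hC
            have : C ⊆ KK x := by
              obtain ⟨i, rfl⟩ := hcomp C hC
              exact connectedComponentIn_subset _ _
            exact ne_top_of_le_ne_top hfin (measure_mono this)
          rw [measureReal_biUnion_finset hdisj hm hft]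
          rfl
      _ ≤ volume.real (KK x) := measureReal_mono hsub hfin
  have h2 := polya' x (KK_compact x) ⟨_, root_mem x (Classical.arbitrary ι)⟩ (fun t ht => ht)
  calc ∑ C ∈ JJ x, (sSup C - sInf C) / 2 = (∑ C ∈ JJ x, volume.real C) / 2 := by
        rw [Finset.sum_div]
        exact Finset.sum_congr rfl (fun C hC => by rw [hvol C hC])
    _ ≤ volume.real (KK x) / 2 := by linarith
    _ ≤ _ := h2

/-- Main covering theorem. -/
theorem cover {n : ℕ} (hn : 0 < n) (z : Fin n → ℂ) (u : ℂ) (hu : ‖u‖ = 1) (c h : Set ℝ → ℝ)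
    (hh : ∀ i, |(u * z i).im - c (connectedComponentIn (KK fun j => (u * z j).re) (u * z i).re)|
      ≤ h (connectedComponentIn (KK fun j => (u * z j).re) (u * z i).re)) :
    Nonempty (BoundedDiscCover {w : ℂ | ‖∏ i, (w - z i)‖ ≤ 1}
      ((2 : ℝ) ^ (1 - 1 / (n : ℝ)) + ∑ C ∈ JJ (fun j => (u * z j).re), h C)
      {C // C ∈ JJ (fun j => (u * z j).re)}) := by
  classical
  haveI : Nonempty (Fin n) := ⟨⟨0, hn⟩⟩
  set x : Fin n → ℝ := fun j => (u * z j).re with hx
  set y : Fin n → ℝ := fun j => (u * z j).im with hy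
  have hu0 : u ≠ 0 := by
    intro h0; rw [h0, norm_zero] at hu; norm_num at hu
  have hcomp : ∀ C ∈ JJ x, ∃ i, connectedComponentIn (KK x) (x i) = C := by
    intro C hC
    simp only [JJ, Finset.mem_image, Finset.mem_univ, true_and] at hC
    exact hC
  have hIcc : ∀ C ∈ JJ x, C = Icc (sInf C) (sSup C) := by
    intro C hC
    obtain ⟨i, rfl⟩ := hcomp C hC
    exact comp_eq_Icc x (root_mem x i)
  have hL : ∀ C ∈ JJ x, 1 ≤ ∏ i, |sInf C - x i| := by
    intro C hC
    obtain ⟨i, rfl⟩ := hcomp C hC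
    exact endL x (root_mem x i) (comp_eq_Icc x (root_mem x i))
  have hR : ∀ C ∈ JJ x, 1 ≤ ∏ i, |sSup C - x i| := by
    intro C hC
    obtain ⟨i, rfl⟩ := hcomp C hC
    exact endR x (root_mem x i) (comp_eq_Icc x (root_mem x i))
  have hlt : ∀ C ∈ JJ x, sInf C < sSup C := by
    intro C hC
    obtain ⟨i, hi⟩ := hcomp C hC
    have h1 : x i ∈ C := by rw [← hi]; exact mem_connectedComponentIn (root_mem x i)
    rw [hIcc C hC] at h1
    refine lt_of_le_of_ne (le_trans h1.1 h1.2) ?_
    intro heq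
    have h2 : sInf C = x i := le_antisymm h1.1 (by rw [heq]; exact h1.2)
    have h3 := hL C hC
    have h4 : ∏ j, |sInf C - x j| = 0 := Finset.prod_eq_zero (Finset.mem_univ i) (by simp [h2])
    linarith
  have hhC : ∀ C ∈ JJ x, ∀ i, x i ∈ C → |y i - c C| ≤ h C := by
    intro C hC i hi
    obtain ⟨j, rfl⟩ := hcomp C hC
    have h1 := connectedComponentIn_eq hi
    rw [h1]
    exact hh i
  have hh0 : ∀ C ∈ JJ x, 0 ≤ h C := by
    intro C hC
    obtain ⟨i, hi⟩ := hcomp C hC
    have h1 : x i ∈ C := by rw [← hi]; exact mem_connectedComponentIn (root_mem x i)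
    exact le_trans (abs_nonneg _) (hhC C hC i h1)
  refine ⟨{
    C := fun C => u⁻¹ * (⟨(sInf C.1 + sSup C.1) / 2, c C.1⟩ : ℂ)
    R := fun C => (sSup C.1 - sInf C.1) / 2 + h C.1
    h_cover := ?_
    h_summable := (hasSum_fintype _).summable
    h_bdd := ?_
    h_pos := ?_ }⟩
  · intro w hw
    have hw1 : ‖∏ i, (w - z i)‖ ≤ 1 := hw
    rw [norm_prod] at hw1
    have hnorm : ∀ i, ‖w - z i‖ ^ 2 = ((u * w).re - x i) ^ 2 + ((u * w).im - y i) ^ 2 := by
      intro i
      have e1 : ‖w - z i‖ = ‖u * w - u * z i‖ := by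
        rw [← mul_sub, norm_mul, hu, one_mul]
      rw [e1, ← Complex.normSq_eq_norm_sq, Complex.normSq_apply]
      simp only [Complex.sub_re, Complex.sub_im, hx, hy]
      ring
    have hE : ∏ i, (((u * w).re - x i) ^ 2 + ((u * w).im - y i) ^ 2) ≤ 1 := by
      have : ∏ i, (((u * w).re - x i) ^ 2 + ((u * w).im - y i) ^ 2) = (∏ i, ‖w - z i‖) ^ 2 := by
        rw [← Finset.prod_pow]
        exact Finset.prod_congr rfl (fun i _ => (hnorm i).symm)
      rw [this]
      exact pow_le_one₀ (Finset.prod_nonneg (fun i _ => norm_nonneg _)) hw1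
    have hXK : (u * w).re ∈ KK x := by
      have : ∏ i, |(u * w).re - x i| ≤ ∏ i, ‖w - z i‖ := by
        apply Finset.prod_le_prod (fun i _ => abs_nonneg _)
        intro i _
        apply abs_le_of_sq_le_sq _ (norm_nonneg _)
        rw [hnorm i]
        nlinarith [sq_nonneg ((u * w).im - y i)]
      exact le_trans this hw1
    obtain ⟨i, hi⟩ := exists_root x hXK
    set D := connectedComponentIn (KK x) (x i) with hD
    have hDJ : D ∈ JJ x := by
      simp only [JJ, Finset.mem_image, Finset.mem_univ, true_and]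
      exact ⟨i, rfl⟩
    rw [mem_iUnion]
    refine ⟨⟨D, hDJ⟩, ?_⟩
    have hXI : (u * w).re ∈ Icc (sInf D) (sSup D) := by rw [← hIcc D hDJ]; exact hi
    have key := disc' x y (c := c D) (h := h D) (X := (u * w).re) (Y := (u * w).im)
      (hlt D hDJ) hXI (hL D hDJ) (hR D hDJ)
      ⟨i, by rw [← hIcc D hDJ]; exact mem_connectedComponentIn (root_mem x i)⟩
      (fun j hj => hhC D hDJ j (by rw [hIcc D hDJ]; exact hj)) hE
    rw [Metric.mem_closedBall, Complex.dist_eq]
    have hpos : 0 ≤ (sSup D - sInf D) / 2 + h D := by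
      have := hlt D hDJ
      have := hh0 D hDJ
      linarith
    apply le_of_sq_le_sq _ hpos
    have e1 : ‖w - u⁻¹ * (⟨(sInf D + sSup D) / 2, c D⟩ : ℂ)‖
        = ‖u * w - (⟨(sInf D + sSup D) / 2, c D⟩ : ℂ)‖ := by
      have : u * w - (⟨(sInf D + sSup D) / 2, c D⟩ : ℂ)
          = u * (w - u⁻¹ * (⟨(sInf D + sSup D) / 2, c D⟩ : ℂ)) := by
        rw [mul_sub, ← mul_assoc, mul_inv_cancel₀ hu0, one_mul]
      rw [this, norm_mul, hu, one_mul]
    simp only
    rw [e1, ← Complex.normSq_eq_norm_sq, Complex.normSq_apply]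
    simp only [Complex.sub_re, Complex.sub_im]
    nlinarith [key]
  · rw [tsum_fintype]
    have e1 : ∑ C : {C // C ∈ JJ x}, ((sSup C.1 - sInf C.1) / 2 + h C.1)
        = ∑ C ∈ JJ x, ((sSup C - sInf C) / 2 + h C) :=
      Finset.sum_coe_sort (JJ x) (fun C => (sSup C - sInf C) / 2 + h C)
    rw [e1, Finset.sum_add_distrib]
    have := JJ_sum x
    rw [Fintype.card_fin] at this
    linarith
  · intro C
    have h1 := hlt C.1 C.2
    have h2 := hh0 C.1 C.2
    linarith

end Pool.Agent.W805.LD
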