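import Mathlib

set_option autoImplicit false

open Polynomial MeasureTheory Set

namespace Pool.Agent.W805.LD

noncomputable def phi (K : Set ℝ) (t : ℝ) : ℝ := volume.real (K ∩ Iic t)

lemma phi_mono {K : Set ℝ} (hK : IsCompact K) {s t : ℝ} (h : s ≤ t) : phi K s ≤ phi K t := by
  unfold phi
  apply measureReal_mono
  · exact inter_subset_inter_right _ (Iic_subset_Iic.2 h)
  · exact ne_of_lt (lt_of_le_of_lt (measure_mono inter_subset_left) hK.measure_lt_top)

lemma phi_le_add {K : Set ℝ} (hK : IsCompact K) {s t : ℝ} (h : s ≤ t) :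
    phi K t ≤ phi K s + (t - s) := by
  unfold phi
  have h1 : K ∩ Iic t ⊆ (K ∩ Iic s) ∪ Ioc s t := by
    rintro y ⟨hy, hyt⟩
    by_cases hys : y ≤ s
    · exact Or.inl ⟨hy, hys⟩
    · exact Or.inr ⟨not_le.1 hys, hyt⟩
  have hfin : volume ((K ∩ Iic s) ∪ Ioc s t) ≠ ⊤ := by
    apply ne_of_lt
    refine lt_of_le_of_lt (measure_union_le _ _) ?_
    apply ENNReal.add_lt_top.2
    refine ⟨lt_of_le_of_lt (measure_mono inter_subset_left) hK.measure_lt_top, ?_⟩
    rw [Real.volume_Ioc]; exact ENNReal.ofReal_lt_top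
  calc volume.real (K ∩ Iic t) ≤ volume.real ((K ∩ Iic s) ∪ Ioc s t) := measureReal_mono h1 hfin
    _ ≤ volume.real (K ∩ Iic s) + volume.real (Ioc s t) := measureReal_union_le _ _
    _ = volume.real (K ∩ Iic s) + (t - s) := by rw [Real.volume_real_Ioc_of_le h]

lemma abs_phi_sub {K : Set ℝ} (hK : IsCompact K) (s t : ℝ) : |phi K s - phi K t| ≤ |s - t| := by
  rcases le_total s t with h | h
  · have h1 := phi_mono hK h
    have h2 := phi_le_add hK h
    rw [abs_sub_comm, abs_of_nonneg (by linarith), abs_sub_comm, abs_of_nonneg (by linarith)]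
    linarith
  · have h1 := phi_mono hK h
    have h2 := phi_le_add hK h
    rw [abs_of_nonneg (by linarith), abs_of_nonneg (by linarith)]
    linarith

lemma phi_cont {K : Set ℝ} (hK : IsCompact K) : Continuous (phi K) := by
  have : LipschitzWith 1 (phi K) := by
    apply LipschitzWith.of_dist_le_mul
    intro a b
    rw [Real.dist_eq, Real.dist_eq]
    simpa using abs_phi_sub hK a b
  exact this.continuous

lemma phi_surj {K : Set ℝ} (hK : IsCompact K) (hne : K.Nonempty) {y : ℝ}
    (hy : y ∈ Icc (0 : ℝ) (volume.real K)) : ∃ t ∈ K, phi K t = y := by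
  have ha : sInf K ∈ K := hK.sInf_mem hne
  have hb : sSup K ∈ K := hK.sSup_mem hne
  have hab : sInf K ≤ sSup K := csInf_le hK.bddBelow hb
  have h0 : phi K (sInf K) = 0 := by
    unfold phi
    have : K ∩ Iic (sInf K) ⊆ {sInf K} := by
      rintro z ⟨hz, hz2⟩
      have := csInf_le hK.bddBelow hz
      exact le_antisymm hz2 this
    have h2 : volume (K ∩ Iic (sInf K)) = 0 := by
      apply le_antisymm _ (zero_le)
      calc volume (K ∩ Iic (sInf K)) ≤ volume ({sInf K} : Set ℝ) := measure_mono this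
        _ = 0 := Real.volume_singleton
    simp [Measure.real, h2]
  have h1 : phi K (sSup K) = volume.real K := by
    unfold phi
    congr 1
    apply inter_eq_left.2
    intro z hz
    exact le_csSup hK.bddAbove hz
  have hiv := intermediate_value_Icc hab (phi_cont hK).continuousOn
  rw [h0, h1] at hiv
  obtain ⟨t, ht, hty⟩ := hiv hy
  have hc : IsCompact (K ∩ Iic t) := hK.inter_right isClosed_Iic
  have hn : (K ∩ Iic t).Nonempty := ⟨sInf K, ha, ht.1⟩
  have hm := hc.sSup_mem hn
  refine ⟨sSup (K ∩ Iic t), hm.1, ?_⟩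
  rw [← hty]
  unfold phi
  congr 1
  ext z
  constructor
  · rintro ⟨hz, hz2⟩
    exact ⟨hz, mem_Iic.2 (le_trans (mem_Iic.1 hz2) (mem_Iic.1 hm.2))⟩
  · rintro ⟨hz, hz2⟩
    exact ⟨hz, le_csSup hc.bddAbove ⟨hz, hz2⟩⟩

/-- Polya's inequality, Chebyshev form. -/
theorem polya {ι : Type} [Fintype ι] (x : ι → ℝ) {K : Set ℝ} (hK : IsCompact K)
    (hne : K.Nonempty) (hq : ∀ t ∈ K, ∏ i, |t - x i| ≤ 1) :
    (volume.real K / 2) ^ (Fintype.card ι) ≤ 2 ^ (Fintype.card ι - 1) := by
  classical
  set L := volume.real K with hL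
  have hL0 : 0 ≤ L := measureReal_nonneg
  rcases eq_or_lt_of_le hL0 with h0 | h0
  · rw [← h0]
    rcases Nat.eq_zero_or_pos (Fintype.card ι) with hc | hc
    · rw [hc]; norm_num
    · rw [zero_div, zero_pow hc.ne']; positivity
  let P : ℝ[X] := ∏ i, (X - C (phi K (x i)))
  let Q : ℝ[X] := P.comp (C (L / 2) * X + C (L / 2))
  have hPm : P.Monic := monic_prod_of_monic _ _ (fun i _ => monic_X_sub_C _)
  have hPd : P.natDegree = Fintype.card ι := by
    simp only [P]
    rw [natDegree_prod_of_monic _ _ (fun i _ => monic_X_sub_C _)]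
    simp
  have hlin : (C (L / 2) * X + C (L / 2) : ℝ[X]).natDegree = 1 := by
    apply natDegree_linear; positivity
  have hlc : (C (L / 2) * X + C (L / 2) : ℝ[X]).leadingCoeff = L / 2 := by
    apply leadingCoeff_linear; positivity
  have hQl : Q.leadingCoeff = (L / 2) ^ (Fintype.card ι) := by
    simp only [Q]
    rw [leadingCoeff_comp (by rw [hlin]; norm_num), hPm.leadingCoeff, hlc, hPd, one_mul]
  have hQd : Q.degree ≤ (Fintype.card ι : ℕ) := by
    apply degree_le_of_natDegree_le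
    simp only [Q]
    rw [natDegree_comp, hPd, hlin, mul_one]
  have hbnd : ∀ s ∈ Icc (-1 : ℝ) 1, |Q.eval s| ≤ 1 := by
    intro s hs
    have hy : L / 2 * s + L / 2 ∈ Icc (0 : ℝ) L := by
      constructor <;> nlinarith [hs.1, hs.2]
    obtain ⟨t, htK, ht⟩ := phi_surj hK hne hy
    have : Q.eval s = ∏ i, (phi K t - phi K (x i)) := by
      simp only [Q, P]
      rw [eval_comp, eval_prod]
      simp [ht]
    rw [this, Finset.abs_prod]
    calc ∏ i, |phi K t - phi K (x i)| ≤ ∏ i, |t - x i| :=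
          Finset.prod_le_prod (fun i _ => abs_nonneg _) (fun i _ => abs_phi_sub hK _ _)
      _ ≤ 1 := hq t htK
  have := Polynomial.Chebyshev.leadingCoeff_le_of_forall_abs_le_one hQd hbnd
  rwa [hQl] at this

/-- total length at most `2 * 2 ^ (1 - 1/n)`. -/
theorem polya' {ι : Type} [Fintype ι] [Nonempty ι] (x : ι → ℝ) {K : Set ℝ} (hK : IsCompact K)
    (hne : K.Nonempty) (hq : ∀ t ∈ K, ∏ i, |t - x i| ≤ 1) :
    volume.real K / 2 ≤ (2 : ℝ) ^ (1 - 1 / (Fintype.card ι : ℝ)) := by
  have h := polya x hK hne hq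
  have hc : 0 < Fintype.card ι := Fintype.card_pos
  have hL0 : 0 ≤ volume.real K / 2 := by
    have : 0 ≤ volume.real K := measureReal_nonneg
    positivity
  have h2 : ((2 : ℝ) ^ (1 - 1 / (Fintype.card ι : ℝ))) ^ (Fintype.card ι)
      = 2 ^ (Fintype.card ι - 1) := by
    rw [← Real.rpow_natCast, ← Real.rpow_mul (by norm_num)]
    rw [← Real.rpow_natCast]
    congr 1
    have : (Fintype.card ι : ℝ) ≠ 0 := by positivity
    rw [Nat.cast_sub hc]
    field_simp
    simp
  rw [← h2] at h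
  exact le_of_pow_le_pow_left₀ hc.ne' (by positivity) h

end Pool.Agent.W805.LD
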