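import Pool.Agent.W805.LD.Join

set_option autoImplicit false

open Set MeasureTheory N460a421b Polynomial

namespace Pool.Agent.W805.LD

lemma prod_twice (t : Multiset ℂ) (a w : ℂ) (h : ∀ b ∈ t, ‖a - b‖ ≤ 2 * ‖w - b‖) :
    (t.map fun b => ‖a - b‖).prod ≤ 2 ^ (Multiset.card t) * (t.map fun b => ‖w - b‖).prod := by
  induction t using Multiset.induction_on with
  | empty => simp
  | cons b t ih =>
    simp only [Multiset.map_cons, Multiset.prod_cons, Multiset.card_cons, pow_succ]
    have h1 := ih fun x hx => h x (Multiset.mem_cons_of_mem hx)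
    have h2 := h b (Multiset.mem_cons_self b t)
    calc ‖a - b‖ * (t.map fun b => ‖a - b‖).prod
        ≤ (2 * ‖w - b‖) * (2 ^ (Multiset.card t) * (t.map fun b => ‖w - b‖).prod) :=
          mul_le_mul h2 h1 (prod_nonneg' t a) (by positivity)
      _ = _ := by ring

/-- `∏_{b ≠ a} |a - b|`. -/
noncomputable def DD (s : Multiset ℂ) (a : ℂ) : ℝ := ((s.erase a).map fun b => ‖a - b‖).prod

lemma DD_pos {s : Multiset ℂ} (hnd : s.Nodup) {a : ℂ} (ha : a ∈ s) : 0 < DD s a := by
  unfold DD
  have h1 : ∀ x ∈ (s.erase a).map fun b => ‖a - b‖, 0 < x := by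
    intro x hx
    rw [Multiset.mem_map] at hx
    obtain ⟨b, hb, rfl⟩ := hx
    rw [norm_pos_iff, sub_ne_zero]
    rintro rfl
    exact (hnd.notMem_erase) hb
  exact Multiset.prod_induction (fun x : ℝ => 0 < x) _ (fun x y hx hy => mul_pos hx hy) one_pos h1

lemma spread_cover (s : Multiset ℂ) (hs : s ≠ 0) (hnd : s.Nodup) (c : ℝ) (hc : 0 < c) :
    FC (EE s c) (2 ^ (Multiset.card s - 1) * c * (s.map fun a => (DD s a)⁻¹).sum) := by
  classical
  refine ⟨{a // a ∈ s.toFinset}, inferInstance, fun a => a.1,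
    fun a => 2 ^ (Multiset.card s - 1) * c * (DD s a.1)⁻¹, ?_, ?_, ?_⟩
  · intro a
    have := DD_pos hnd (Multiset.mem_toFinset.1 a.2)
    positivity
  · have e1 : ∑ a : {a // a ∈ s.toFinset}, (2 : ℝ) ^ (Multiset.card s - 1) * c * (DD s a.1)⁻¹
        = ∑ a ∈ s.toFinset, (2 : ℝ) ^ (Multiset.card s - 1) * c * (DD s a)⁻¹ :=
      Finset.sum_coe_sort s.toFinset (fun a => (2 : ℝ) ^ (Multiset.card s - 1) * c * (DD s a)⁻¹)
    rw [e1, ← Finset.mul_sum]
    apply le_of_eq
    congr 1
    show (Multiset.map (fun a => (DD s a)⁻¹) s.toFinset.val).sum = _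
    rw [Multiset.toFinset_val, hnd.dedup]
  · intro w hw
    have hne : s.toFinset.Nonempty := by
      obtain ⟨a, ha⟩ := Multiset.exists_mem_of_ne_zero hs
      exact ⟨a, Multiset.mem_toFinset.2 ha⟩
    obtain ⟨a, ha, hmin⟩ := Finset.exists_min_image s.toFinset (fun a => ‖w - a‖) hne
    refine ⟨⟨a, ha⟩, ?_⟩
    have ha' : a ∈ s := Multiset.mem_toFinset.1 ha
    have hD := DD_pos hnd ha'
    have h1 : DD s a ≤ 2 ^ (Multiset.card (s.erase a)) * ((s.erase a).map fun b => ‖w - b‖).prod := by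
      apply prod_twice
      intro b hb
      have hb' : b ∈ s := Multiset.mem_of_mem_erase hb
      have h2 := hmin b (Multiset.mem_toFinset.2 hb')
      calc ‖a - b‖ = ‖(w - b) - (w - a)‖ := by congr 1; ring
        _ ≤ ‖w - b‖ + ‖w - a‖ := norm_sub_le _ _
        _ ≤ 2 * ‖w - b‖ := by linarith
    have h3 : ‖w - a‖ * ((s.erase a).map fun b => ‖w - b‖).prod ≤ c := by
      have : (s.map fun b => ‖w - b‖).prod ≤ c := hw
      rw [← Multiset.cons_erase ha'] at this
      simpa using this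
    have h4 : Multiset.card (s.erase a) = Multiset.card s - 1 := Multiset.card_erase_of_mem ha'
    rw [h4] at h1
    show ‖w - a‖ ≤ 2 ^ (Multiset.card s - 1) * c * (DD s a)⁻¹
    rw [← div_eq_mul_inv, le_div_iff₀ hD]
    calc ‖w - a‖ * DD s a
        ≤ ‖w - a‖ * (2 ^ (Multiset.card s - 1) * ((s.erase a).map fun b => ‖w - b‖).prod) :=
          mul_le_mul_of_nonneg_left h1 (norm_nonneg _)
      _ = 2 ^ (Multiset.card s - 1) * (‖w - a‖ * ((s.erase a).map fun b => ‖w - b‖).prod) := by ring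
      _ ≤ 2 ^ (Multiset.card s - 1) * c := mul_le_mul_of_nonneg_left h3 (by positivity)

/-- zeros with large derivatives -/
lemma spread (s : Multiset ℂ) (hs : s ≠ 0) (hnd : s.Nodup)
    (h : 2 ^ (Multiset.card s - 1) * (s.map fun a => (DD s a)⁻¹).sum ≤ 2) : PS s := by
  intro c hc hc1
  apply (spread_cover s hs hnd c hc).mono (Subset.refl _)
  have hn : 0 < Multiset.card s := Multiset.card_pos.2 hs
  have h1 : c ≤ c ^ (1 / (Multiset.card s : ℝ)) := by
    calc c = c ^ (1 : ℝ) := by simp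
      _ ≤ c ^ (1 / (Multiset.card s : ℝ)) := by
        apply Real.rpow_le_rpow_of_exponent_ge hc hc1
        rw [div_le_one (by exact_mod_cast hn)]
        exact_mod_cast hn
  calc 2 ^ (Multiset.card s - 1) * c * (s.map fun a => (DD s a)⁻¹).sum
      = (2 ^ (Multiset.card s - 1) * (s.map fun a => (DD s a)⁻¹).sum) * c := by ring
    _ ≤ 2 * c := mul_le_mul_of_nonneg_right h hc.le
    _ ≤ _ := mul_le_mul_of_nonneg_left h1 (by norm_num)

lemma eval_norm (f : ℂ[X]) (hf : f.Monic) (w : ℂ) :
    ‖f.eval w‖ = (f.roots.map fun a => ‖w - a‖).prod := by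
  have hs : f.Splits := IsAlgClosed.splits f
  have h1 : f = (f.roots.map (fun a => X - C a)).prod := hs.eq_prod_roots_of_monic hf
  have h2 : f.eval w = (f.roots.map fun a => w - a).prod := by
    conv_lhs => rw [h1]
    rw [eval_multiset_prod, Multiset.map_map]
    congr 1
    apply Multiset.map_congr rfl
    intro a _
    simp
  rw [h2]
  have h3 : ‖(f.roots.map fun a => w - a).prod‖
      = ((f.roots.map fun a => w - a).map fun x => ‖x‖).prod := by
    have := map_multiset_prod (normHom : ℂ →*₀ ℝ) (f.roots.map fun a => w - a)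
    exact this
  rw [h3, Multiset.map_map]
  rfl

lemma card_roots' (f : ℂ[X]) : Multiset.card f.roots = f.natDegree :=
  ((IsAlgClosed.splits f).natDegree_eq_card_roots).symm

/-- binomials `(X - b)^n - a`. -/
lemma binom (n : ℕ) (hn : 0 < n) (a b : ℂ) : PS ((X - C b) ^ n - C a).roots := by
  set f : ℂ[X] := (X - C b) ^ n - C a with hf
  have hpm : ((X - C b) ^ n : ℂ[X]).Monic := (monic_X_sub_C b).pow n
  have hpd : ((X - C b) ^ n : ℂ[X]).natDegree = n := by
    rw [natDegree_pow, natDegree_X_sub_C, mul_one]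
  have hdeg : (C a : ℂ[X]).degree < ((X - C b) ^ n : ℂ[X]).degree := by
    rw [degree_eq_natDegree hpm.ne_zero, hpd]
    exact lt_of_le_of_lt degree_C_le (by exact_mod_cast hn)
  have hm : f.Monic := hpm.sub_of_left hdeg
  have hnd : f.natDegree = n := by
    rw [hf, natDegree_sub_C, hpd]
  have hcard : Multiset.card f.roots = n := by rw [card_roots', hnd]
  have hroot : ∀ w, f.eval w = (w - b) ^ n - a := by intro w; simp [hf]
  have hs : f.roots ≠ 0 := by
    intro h; rw [h] at hcard; simp at hcard; omega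
  have hn0 : (n : ℝ) ≠ 0 := by positivity
  intro c hc hc1
  rw [hcard]
  set γ := c ^ (1 / (n : ℝ)) with hγ
  have hγ0 : 0 < γ := by positivity
  have hγn : γ ^ n = c := by
    rw [hγ, ← Real.rpow_natCast, ← Real.rpow_mul hc.le, one_div, inv_mul_cancel₀ hn0, Real.rpow_one]
  by_cases ha : ‖a‖ ≤ (2 ^ n - 1) * c
  · -- a single disc
    apply FC.single (m := b) (by positivity)
    intro w hw
    have h1 : ‖f.eval w‖ ≤ c := by
      rw [eval_norm f hm]; exact hw
    rw [hroot] at h1
    have h2 : ‖w - b‖ ^ n ≤ (2 * γ) ^ n := by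
      rw [mul_pow, hγn, ← norm_pow]
      have : ‖(w - b) ^ n‖ ≤ ‖(w - b) ^ n - a‖ + ‖a‖ := by
        calc ‖(w - b) ^ n‖ = ‖((w - b) ^ n - a) + a‖ := by congr 1; ring
          _ ≤ _ := norm_add_le _ _
      nlinarith
    exact le_of_pow_le_pow_left₀ hn.ne' (by positivity) h2
  · push Not at ha
    have h2n : (1 : ℝ) ≤ 2 ^ n := one_le_pow₀ (by norm_num)
    have ha0 : 0 < ‖a‖ := lt_of_le_of_lt (mul_nonneg (by linarith) hc.le) ha
    have hane : a ≠ 0 := norm_pos_iff.1 ha0
    have hrn : ∀ z ∈ f.roots, ‖z - b‖ ^ n = ‖a‖ := by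
      intro z hz
      have h1 : f.eval z = 0 := (mem_roots hm.ne_zero).1 hz
      rw [hroot, sub_eq_zero] at h1
      rw [← norm_pow, h1]
    set ρ := ‖a‖ ^ (1 / (n : ℝ)) with hρ
    have hρ0 : 0 < ρ := by positivity
    have hρn : ρ ^ n = ‖a‖ := by
      rw [hρ, ← Real.rpow_natCast, ← Real.rpow_mul ha0.le, one_div, inv_mul_cancel₀ hn0,
        Real.rpow_one]
    have hzρ : ∀ z ∈ f.roots, ‖z - b‖ = ρ := by
      intro z hz
      have := hrn z hz
      rw [← hρn] at this
      exact (pow_left_inj₀ (norm_nonneg _) hρ0.le hn.ne').1 this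
    have hder : ∀ z, f.derivative.eval z = n * (z - b) ^ (n - 1) := by
      intro z
      simp [hf, derivative_pow]
    have hdn : ∀ z ∈ f.roots, ‖f.derivative.eval z‖ = n * ρ ^ (n - 1) := by
      intro z hz
      rw [hder, norm_mul, norm_pow, hzρ z hz]
      simp
    have hnod : f.roots.Nodup := by
      rw [Multiset.nodup_iff_count_le_one]
      intro z
      by_cases hz : z ∈ f.roots
      · rw [count_roots]
        by_contra hcon
        push Not at hcon
        have := (one_lt_rootMultiplicity_iff_isRoot hm.ne_zero).1 hcon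
        have h0 : f.derivative.eval z = 0 := this.2
        have h1 := hdn z hz
        rw [h0, norm_zero] at h1
        have : 0 < (n : ℝ) * ρ ^ (n - 1) := by positivity
        linarith
      · rw [Multiset.count_eq_zero_of_notMem hz]; norm_num
    have hDD : ∀ z ∈ f.roots, DD f.roots z = n * ρ ^ (n - 1) := by
      intro z hz
      rw [← hdn z hz]
      have hs' : f.Splits := IsAlgClosed.splits f
      rw [hs'.eval_root_derivative hm hz]
      unfold DD
      have h3 : ‖((f.roots.erase z).map fun x => z - x).prod‖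
          = (((f.roots.erase z).map fun x => z - x).map fun x => ‖x‖).prod := by
        have := map_multiset_prod (normHom : ℂ →*₀ ℝ) ((f.roots.erase z).map fun x => z - x)
        exact this
      rw [h3, Multiset.map_map]
      rfl
    have hsum : (f.roots.map fun z => (DD f.roots z)⁻¹).sum = (ρ ^ (n - 1))⁻¹ := by
      have : (f.roots.map fun z => (DD f.roots z)⁻¹)
          = f.roots.map fun _ => ((n : ℝ) * ρ ^ (n - 1))⁻¹ :=
        Multiset.map_congr rfl (fun z hz => by rw [hDD z hz])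
      rw [this, Multiset.map_const', Multiset.sum_replicate, hcard, nsmul_eq_mul]
      field_simp
    have h5 := spread_cover f.roots hs hnod c hc
    rw [hsum, hcard] at h5
    apply h5.mono (Subset.refl _)
    rw [← div_eq_mul_inv, div_le_iff₀ (by positivity)]
    -- 2^(n-1) * c ≤ 2 * γ * ρ^(n-1)
    obtain ⟨m, rfl⟩ : ∃ m, n = m + 1 := ⟨n - 1, by omega⟩
    simp only [Nat.add_sub_cancel] at *
    have h6 : (2 ^ (m + 1) - 1) * γ ^ (m + 1) < ρ ^ (m + 1) := by rw [hγn, hρn]; exact ha
    have h7 : (2 : ℝ) ^ m * γ ^ m ≤ 2 * ρ ^ m := by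
      rcases le_total (2 * γ) ρ with h | h
      · have : (2 * γ) ^ m ≤ ρ ^ m := pow_le_pow_left₀ (by positivity) h m
        rw [mul_pow] at this
        have : 0 ≤ ρ ^ m := by positivity
        linarith
      · have e1 : (1 : ℝ) ≤ 2 ^ m := one_le_pow₀ (by norm_num)
        have e2 : (2 : ℝ) ^ m * γ ^ (m + 1) ≤ (2 ^ (m + 1) - 1) * γ ^ (m + 1) := by
          apply mul_le_mul_of_nonneg_right _ (by positivity)
          rw [pow_succ]; linarith
        have e3 : ρ ^ (m + 1) ≤ ρ ^ m * (2 * γ) := by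
          rw [pow_succ]; exact mul_le_mul_of_nonneg_left h (by positivity)
        have e4 : (2 ^ m * γ ^ m) * γ ≤ (2 * ρ ^ m) * γ := by
          have : (2 : ℝ) ^ m * γ ^ (m + 1) = (2 ^ m * γ ^ m) * γ := by ring
          nlinarith
        exact le_of_mul_le_mul_right e4 hγ0
    calc (2 : ℝ) ^ m * c = (2 ^ m * γ ^ m) * γ := by rw [← hγn]; ring
      _ ≤ (2 * ρ ^ m) * γ := mul_le_mul_of_nonneg_right h7 hγ0.le
      _ = 2 * γ * ρ ^ m := by ring

end Pool.Agent.W805.LD
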